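import Pool.Agent.T9h30.MQ.Dual

/-!
# Multiquadratic fields: finiteness of the group of points
-/

set_option autoImplicit false
set_option linter.unusedSectionVars false

open scoped Classical

namespace Pool.Agent.T9h30.MQ

open WeierstrassCurve

variable {F : Type} [Field F] [NumberField F] (W : WeierstrassCurve ℚ)

/-- the points over `F` -/
abbrev Pt (F : Type) [Field F] [NumberField F] (W : WeierstrassCurve ℚ) : Type :=
  (W.baseChange F).toAffine.Point

/-- the action of the Galois group -/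
noncomputable def act (σ : Gal(F/ℚ)) : Pt F W →+ Pt F W :=
  Affine.Point.map (W' := W) (σ : F →ₐ[ℚ] F)

lemma act_mul (σ τ : Gal(F/ℚ)) (P : Pt F W) : act W (σ * τ) P = act W σ (act W τ P) := by
  unfold act
  rw [Affine.Point.map_map]
  rfl

lemma act_one (P : Pt F W) : act W (1 : Gal(F/ℚ)) P = P := by
  unfold act
  cases P <;> rfl

/-- integral sign -/
noncomputable def zs (M : Ms F) (σ : Gal(F/ℚ)) : ℤ := if chi M σ = 1 then 1 else -1

lemma hne1 : (1 : ℂˣ) ≠ -1 := by
  intro h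
  have h5 := congrArg (fun u : ℂˣ => (u : ℂ)) h
  norm_num at h5

lemma zs_coe (M : Ms F) (σ : Gal(F/ℚ)) : ((zs M σ : ℤ) : ℂ) = ((chi M σ : ℂˣ) : ℂ) := by
  unfold zs
  rcases chi_or M σ with h | h
  · rw [if_pos h, h]
    norm_num
  · rw [if_neg (by rw [h]; exact hne1.symm), h]
    norm_num

lemma zs_mul (M : Ms F) (σ τ : Gal(F/ℚ)) : zs M (σ * τ) = zs M σ * zs M τ := by
  have h : ((zs M (σ * τ) : ℤ) : ℂ) = ((zs M σ * zs M τ : ℤ) : ℂ) := by
    rw [zs_coe, map_mul]
    push_cast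
    rw [zs_coe, zs_coe]
  exact_mod_cast h

lemma zs_tw (M D : Ms F) (σ : Gal(F/ℚ)) :
    zs (⟨tw M D, Ms_tw M.2 D.2⟩ : Ms F) σ = zs M σ * zs D σ := by
  have h : ((zs (⟨tw M D, Ms_tw M.2 D.2⟩ : Ms F) σ : ℤ) : ℂ) = ((zs M σ * zs D σ : ℤ) : ℂ) := by
    rw [zs_coe, chi_tw, MonoidHom.mul_apply]
    push_cast
    rw [zs_coe, zs_coe]
  exact_mod_cast h

lemma zs_or (M : Ms F) (σ : Gal(F/ℚ)) : zs M σ = 1 ∨ zs M σ = -1 := by
  unfold zs
  split_ifs
  · exact Or.inl rfl
  · exact Or.inr rfl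

lemma zs_one (M : Ms F) : zs M (1 : Gal(F/ℚ)) = 1 := by
  unfold zs
  rw [if_pos (map_one _)]

/-- orthogonality -/
lemma zs_sum (hF : Gen F) [Fintype (Ms F)] (σ : Gal(F/ℚ)) :
    ∑ M : Ms F, zs M σ = if σ = 1 then (Module.finrank ℚ F : ℤ) else 0 := by
  split_ifs with h
  · rw [h]
    simp only [zs_one]
    rw [Finset.sum_const, Finset.card_univ, ← Nat.card_eq_fintype_card, card_Ms hF]
    simp
  · obtain ⟨M₁, hM⟩ : ∃ M₁ : Ms F, chi M₁ σ ≠ 1 := by
      by_contra hcon
      push Not at hcon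
      apply h
      refine gal_ext hF fun M hM x hx => ?_
      rw [AlgEquiv.one_apply]
      exact (chi_eq_one_iff ⟨M, hM⟩ hx σ).1 (hcon _)
    have h1 : zs M₁ σ = -1 := by
      unfold zs
      rw [if_neg hM]
    have h2 : ∑ M : Ms F, zs M σ = ∑ M : Ms F, zs (⟨tw M₁ M, Ms_tw M₁.2 M.2⟩ : Ms F) σ := by
      refine Finset.sum_nbij' (fun M => ⟨tw M₁ M, Ms_tw M₁.2 M.2⟩)
        (fun M => ⟨tw M₁ M, Ms_tw M₁.2 M.2⟩) (fun _ _ => Finset.mem_univ _)
        (fun _ _ => Finset.mem_univ _) ?_ ?_ ?_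
      · intro M _
        exact Subtype.ext (tw_cancel M₁.2.1 M.2.1)
      · intro M _
        exact Subtype.ext (tw_cancel M₁.2.1 M.2.1)
      · intro M _
        congr 1
        exact Subtype.ext (tw_cancel M₁.2.1 M.2.1).symm
    have h3 : ∑ M : Ms F, zs (⟨tw M₁ M, Ms_tw M₁.2 M.2⟩ : Ms F) σ = -∑ M : Ms F, zs M σ := by
      rw [← Finset.sum_neg_distrib]
      refine Finset.sum_congr rfl fun M _ => ?_
      rw [zs_tw, h1, neg_one_mul]
    omega

/-- the component -/
noncomputable def comp (M : Ms F) (P : Pt F W) : Pt F W :=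
  ∑ σ : Gal(F/ℚ), zs M σ • act W σ P

lemma act_comp (M : Ms F) (τ : Gal(F/ℚ)) (P : Pt F W) :
    act W τ (comp W M P) = zs M τ • comp W M P := by
  unfold comp
  rw [map_sum, Finset.smul_sum]
  refine Finset.sum_nbij' (fun σ => τ * σ) (fun σ => τ⁻¹ * σ) (fun _ _ => Finset.mem_univ _)
    (fun _ _ => Finset.mem_univ _) ?_ ?_ ?_
  · intro σ _
    exact inv_mul_cancel_left _ _
  · intro σ _
    exact mul_inv_cancel_left _ _
  · intro σ _
    rw [map_zsmul, act_mul, zs_mul, ← mul_smul, ← mul_assoc]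
    congr 1
    rcases zs_or M τ with h | h <;> rw [h] <;> norm_num

lemma sum_comp (hF : Gen F) [Fintype (Ms F)] (P : Pt F W) :
    ∑ M : Ms F, comp W M P = Module.finrank ℚ F • P := by
  unfold comp
  rw [Finset.sum_comm]
  have h1 : ∀ σ : Gal(F/ℚ), ∑ M : Ms F, zs M σ • act W σ P =
      if σ = 1 then (Module.finrank ℚ F : ℤ) • P else 0 := by
    intro σ
    rw [← Finset.sum_smul, zs_sum hF]
    split_ifs with h
    · rw [h, act_one]
    · rw [zero_smul]
  rw [Finset.sum_congr rfl fun σ _ => h1 σ, Finset.sum_ite_eq' Finset.univ (1 : Gal(F/ℚ)),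
    if_pos (Finset.mem_univ _), natCast_zsmul]

/-- the points with `σ P = χ(σ) P` -/
def Cm (M : Ms F) : Set (Pt F W) := {P | ∀ τ : Gal(F/ℚ), act W τ P = zs M τ • P}

/-- finitely many points in a component -/
theorem finite_Cm (hF : Gen F) (M : Ms F) (W' : WeierstrassCurve ℚ) {c q : ℚ} (hc : c = M * q ^ 2)
    (hq : q ≠ 0) (h2 : W'.b₂ = c * W.b₂) (h4 : W'.b₄ = c ^ 2 * W.b₄) (h6 : W'.b₆ = c ^ 3 * W.b₆)
    (hfin : {Q : ℚ × ℚ | W'.toAffine.Equation Q.1 Q.2}.Finite) : (Cm W M).Finite := by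
  have hG := gen_galois hF
  obtain ⟨r, hr⟩ := M.2.2
  have hr0 : r ≠ 0 := root_ne M.2.1.ne hr
  have hM0 : ((M : ℕ) : ℚ) ≠ 0 := Nat.cast_ne_zero.2 M.2.1.ne
  have hc0 : c ≠ 0 := by
    rw [hc]
    exact mul_ne_zero hM0 (pow_ne_zero 2 hq)
  set H : ℚ × ℚ → Set (Pt F W) := fun Q => {P | ∃ (x y : F) (h : (W.baseChange F).toAffine.Nonsingular x y),
    P = Affine.Point.some x y h ∧ algebraMap ℚ F c * x = algebraMap ℚ F Q.1 ∧
      algebraMap ℚ F (c * q) * r * (2 * y + (W.baseChange F).a₁ * x + (W.baseChange F).a₃) =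
        algebraMap ℚ F (2 * Q.2 + W'.a₁ * Q.1 + W'.a₃)} with hH
  refine Set.Finite.subset ((Set.finite_singleton (0 : Pt F W)).union
    (hfin.biUnion (t := H) fun Q _ => Set.Subsingleton.finite ?_)) ?_
  · rintro _ ⟨x, y, h, rfl, h1, h1'⟩ _ ⟨x', y', h', rfl, h3, h3'⟩
    have hcF : algebraMap ℚ F c ≠ 0 := (map_ne_zero _).2 hc0
    have hcq : algebraMap ℚ F (c * q) ≠ 0 := (map_ne_zero _).2 (mul_ne_zero hc0 hq)
    have e1 : x = x' := mul_left_cancel₀ hcF (h1.trans h3.symm)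
    subst e1
    have e2 := mul_left_cancel₀ (mul_ne_zero hcq hr0) (h1'.trans h3'.symm)
    have e3 : y = y' := by
      have : (2 : F) ≠ 0 := two_ne_zero
      apply mul_left_cancel₀ this
      linear_combination e2
    subst e3
    rfl
  · intro P hP
    rcases P with _ | ⟨x, y, h⟩
    · exact Or.inl rfl
    · right
      rw [Set.mem_iUnion₂]
      have hact : ∀ τ : Gal(F/ℚ), τ x = x ∧ τ (r * (2 * y + (W.baseChange F).a₁ * x +
          (W.baseChange F).a₃)) = r * (2 * y + (W.baseChange F).a₁ * x + (W.baseChange F).a₃) := by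
        intro τ
        have h1 := hP τ
        have ha1 : τ (W.baseChange F).a₁ = (W.baseChange F).a₁ := AlgEquiv.commutes τ _
        have ha3 : τ (W.baseChange F).a₃ = (W.baseChange F).a₃ := AlgEquiv.commutes τ _
        obtain ⟨hn, h1'⟩ : ∃ hn, act W τ (Affine.Point.some x y h) =
          Affine.Point.some (τ x) (τ y) hn := ⟨_, rfl⟩
        rw [h1'] at h1
        unfold zs at h1
        by_cases h2 : chi M τ = 1
        · rw [if_pos h2, one_smul] at h1
          obtain ⟨g1, g2⟩ := Affine.Point.some.inj h1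
          refine ⟨g1, ?_⟩
          have hτr := (chi_eq_one_iff M hr τ).1 h2
          rw [map_mul, map_add, map_add, map_mul, map_mul, map_ofNat, g1, g2, ha1, ha3, hτr]
        · rw [if_neg h2, neg_one_smul, Affine.Point.neg_some] at h1
          obtain ⟨g1, g2⟩ := Affine.Point.some.inj h1
          refine ⟨g1, ?_⟩
          have hτr := (chi_neg_iff M hr τ).1 ((chi_or M τ).resolve_left h2)
          rw [map_mul, map_add, map_add, map_mul, map_mul, map_ofNat, g1, g2, ha1, ha3, hτr]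
          rw [Affine.negY]
          ring
      obtain ⟨x0, hx0⟩ := (IsGalois.mem_range_algebraMap_iff_fixed (F := ℚ) (E := F) x).2
        fun τ => (hact τ).1
      obtain ⟨z0, hz0⟩ := (IsGalois.mem_range_algebraMap_iff_fixed (F := ℚ) (E := F) _).2
        fun τ => (hact τ).2
      set X : ℚ := c * x0 with hX
      set Z : ℚ := c * q * z0 with hZ
      refine ⟨(X, (Z - W'.a₁ * X - W'.a₃) / 2), ?_, x, y, h, rfl, ?_, ?_⟩
      · -- the equation
        have heq := h.1
        have hY : (2 * y + (W.baseChange F).a₁ * x + (W.baseChange F).a₃) ^ 2 =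
            4 * x ^ 3 + algebraMap ℚ F W.b₂ * x ^ 2 + 2 * algebraMap ℚ F W.b₄ * x +
              algebraMap ℚ F W.b₆ := by
          rw [← map_b₂ W (algebraMap ℚ F), ← map_b₄ W (algebraMap ℚ F), ← map_b₆ W (algebraMap ℚ F)]
          rw [Affine.equation_iff] at heq
          have e1 : (W.map (algebraMap ℚ F)).b₂ = (W.baseChange F).a₁ ^ 2 + 4 * (W.baseChange F).a₂ := rfl
          have e2 : (W.map (algebraMap ℚ F)).b₄ = 2 * (W.baseChange F).a₄ +
            (W.baseChange F).a₁ * (W.baseChange F).a₃ := rfl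
          have e3 : (W.map (algebraMap ℚ F)).b₆ = (W.baseChange F).a₃ ^ 2 +
            4 * (W.baseChange F).a₆ := rfl
          rw [e1, e2, e3]
          linear_combination 4 * heq
        have hrM : r ^ 2 = algebraMap ℚ F (M : ℕ) := by rw [hr, map_natCast]
        have hz2 : z0 ^ 2 = (M : ℕ) * (4 * x0 ^ 3 + W.b₂ * x0 ^ 2 + 2 * W.b₄ * x0 + W.b₆) := by
          apply (algebraMap ℚ F).injective
          rw [map_pow, hz0, mul_pow, hY, hrM, ← hx0]
          simp only [map_mul, map_add, map_pow, map_ofNat, map_natCast]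
        show W'.toAffine.Equation X ((Z - W'.a₁ * X - W'.a₃) / 2)
        rw [Affine.equation_iff]
        have e1 : W'.a₁ ^ 2 + 4 * W'.a₂ = c * W.b₂ := h2
        have e2 : 2 * W'.a₄ + W'.a₁ * W'.a₃ = c ^ 2 * W.b₄ := h4
        have e3 : W'.a₃ ^ 2 + 4 * W'.a₆ = c ^ 3 * W.b₆ := h6
        have hZ2 : Z ^ 2 = 4 * X ^ 3 + (W'.a₁ ^ 2 + 4 * W'.a₂) * X ^ 2 +
            2 * (2 * W'.a₄ + W'.a₁ * W'.a₃) * X + (W'.a₃ ^ 2 + 4 * W'.a₆) := by
          rw [e1, e2, e3, hZ, hX]
          have e4 : (c * q * z0) ^ 2 = c ^ 2 * q ^ 2 * z0 ^ 2 := by ring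
          rw [e4, hz2]
          have e5 : c ^ 2 * q ^ 2 * ((M : ℕ) * (4 * x0 ^ 3 + W.b₂ * x0 ^ 2 + 2 * W.b₄ * x0 + W.b₆)) =
            c ^ 2 * ((M : ℕ) * q ^ 2) * (4 * x0 ^ 3 + W.b₂ * x0 ^ 2 + 2 * W.b₄ * x0 + W.b₆) := by ring
          rw [e5, ← hc]
          ring
        linear_combination (1 / 4 : ℚ) * hZ2
      · show algebraMap ℚ F c * x = algebraMap ℚ F X
        rw [hX, map_mul, hx0]
      · show algebraMap ℚ F (c * q) * r * _ = algebraMap ℚ F (2 * ((Z - W'.a₁ * X - W'.a₃) / 2) +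
          W'.a₁ * X + W'.a₃)
        have e6 : 2 * ((Z - W'.a₁ * X - W'.a₃) / 2) + W'.a₁ * X + W'.a₃ = Z := by ring
        rw [e6, hZ, map_mul, map_mul, map_mul, hz0]
        ring

/-! ### the points killed by powers of two -/

/-- finitely many points of order two -/
theorem finite_two {k : Type} [Field k] [CharZero k] (V : WeierstrassCurve k) :
    {P : V.toAffine.Point | (2 : ℕ) • P = 0}.Finite := by
  set f : Polynomial k := Polynomial.C 4 * Polynomial.X ^ 3 + Polynomial.C V.b₂ * Polynomial.X ^ 2 +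
    Polynomial.C (2 * V.b₄) * Polynomial.X + Polynomial.C V.b₆ with hf
  have hf0 : f ≠ 0 := by
    intro h
    have h1 : f.natDegree = 3 := Polynomial.natDegree_cubic (by norm_num)
    rw [h] at h1
    simp at h1
  have hfin : {x : k | f.eval x = 0}.Finite := by
    refine (f.roots.toFinset.finite_toSet).subset fun x hx => ?_
    rw [Finset.mem_coe, Multiset.mem_toFinset, Polynomial.mem_roots hf0]
    exact hx
  refine Set.Finite.subset ((Set.finite_singleton (0 : V.toAffine.Point)).union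
    (hfin.biUnion (t := fun x => {P : V.toAffine.Point | ∃ (y : k) (h : V.toAffine.Nonsingular x y),
      P = Affine.Point.some x y h ∧ 2 * y + V.a₁ * x + V.a₃ = 0}) fun x _ =>
      Set.Subsingleton.finite ?_)) ?_
  · rintro _ ⟨y, h, rfl, h1⟩ _ ⟨y', h', rfl, h3⟩
    have e3 : y = y' := by
      have : (2 : k) ≠ 0 := two_ne_zero
      apply mul_left_cancel₀ this
      linear_combination h1 - h3
    subst e3
    rfl
  · intro P hP
    rcases P with _ | ⟨x, y, h⟩
    · exact Or.inl rfl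
    · right
      have h1 : Affine.Point.some x y h = -Affine.Point.some x y h := by
        rw [eq_neg_iff_add_eq_zero, ← two_nsmul]
        exact hP
      rw [Affine.Point.neg_some] at h1
      obtain ⟨-, h2⟩ := Affine.Point.some.inj h1
      rw [Affine.negY] at h2
      have h3 : 2 * y + V.a₁ * x + V.a₃ = 0 := by linear_combination h2
      rw [Set.mem_iUnion₂]
      refine ⟨x, ?_, y, h, rfl, h3⟩
      have heq := h.1
      rw [Affine.equation_iff] at heq
      show f.eval x = 0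
      rw [hf]
      simp only [Polynomial.eval_add, Polynomial.eval_mul, Polynomial.eval_C, Polynomial.eval_pow,
        Polynomial.eval_X]
      have e1 : V.b₂ = V.a₁ ^ 2 + 4 * V.a₂ := rfl
      have e2 : V.b₄ = 2 * V.a₄ + V.a₁ * V.a₃ := rfl
      have e3 : V.b₆ = V.a₃ ^ 2 + 4 * V.a₆ := rfl
      rw [e1, e2, e3]
      linear_combination (2 * y + V.a₁ * x + V.a₃) * h3 - 4 * heq

lemma fib_fin {A : Type*} [AddCommGroup A] {n : ℕ} (h : {P : A | n • P = 0}.Finite) (Q : A) :
    {P : A | n • P = Q}.Finite := by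
  by_cases hne : ∃ P₀ : A, n • P₀ = Q
  · obtain ⟨P₀, rfl⟩ := hne
    refine (h.image (fun P => P + P₀)).subset fun P hP => ⟨P - P₀, ?_, by simp⟩
    have hP' : n • P = n • P₀ := hP
    show n • (P - P₀) = 0
    rw [smul_sub, hP', sub_self]
  · refine Set.Finite.subset Set.finite_empty fun P hP => ?_
    exact absurd ⟨P, hP⟩ hne

lemma finite_pow {A : Type*} [AddCommGroup A] (h : {P : A | (2 : ℕ) • P = 0}.Finite) (k : ℕ) :
    {P : A | (2 ^ k : ℕ) • P = 0}.Finite := by
  induction k with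
  | zero =>
    refine (Set.finite_singleton (0 : A)).subset fun P hP => ?_
    have h1 : (2 ^ 0 : ℕ) • P = 0 := hP
    rw [pow_zero, one_nsmul] at h1
    exact h1
  | succ k ih =>
    refine (ih.biUnion (t := fun Q => {P : A | (2 : ℕ) • P = Q}) fun Q _ => fib_fin h Q).subset
      fun P hP => ?_
    rw [Set.mem_iUnion₂]
    refine ⟨2 • P, ?_, rfl⟩
    show (2 ^ k : ℕ) • (2 : ℕ) • P = 0
    rw [← mul_smul, ← pow_succ]
    exact hP

/-- the degree is a power of two -/
lemma finrank_pow (hF : Gen F) : ∃ k : ℕ, Module.finrank ℚ F = 2 ^ k := by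
  have hG := gen_galois hF
  rw [← IsGalois.card_aut_eq_finrank]
  have h : IsPGroup 2 Gal(F/ℚ) := fun σ => ⟨1, by rw [pow_one, sq, gal_sq hF]⟩
  exact IsPGroup.iff_card.1 h

/-- **finiteness of the group of points over a multiquadratic field** -/
theorem finite_points (hF : Gen F) (tws : Ms F → WeierstrassCurve ℚ) (c q : Ms F → ℚ)
    (hc : ∀ M : Ms F, c M = (M : ℕ) * q M ^ 2) (hq : ∀ M, q M ≠ 0)
    (h2 : ∀ M, (tws M).b₂ = c M * W.b₂) (h4 : ∀ M, (tws M).b₄ = c M ^ 2 * W.b₄)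
    (h6 : ∀ M, (tws M).b₆ = c M ^ 3 * W.b₆)
    (hfin : ∀ M, {Q : ℚ × ℚ | (tws M).toAffine.Equation Q.1 Q.2}.Finite) : Finite (Pt F W) := by
  have hfM := finite_Ms hF
  let _ : Fintype (Ms F) := Fintype.ofFinite _
  obtain ⟨k, hk⟩ := finrank_pow hF
  have hC : ∀ M : Ms F, (Cm W M).Finite := fun M =>
    finite_Cm W hF M (tws M) (hc M) (hq M) (h2 M) (h4 M) (h6 M) (hfin M)
  have hCf : ∀ M : Ms F, Finite (Cm W M) := fun M => hC M
  have hr : (Set.range fun f : (∀ M : Ms F, Cm W M) => ∑ M : Ms F, (f M : Pt F W)).Finite :=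
    Set.finite_range _
  have hT := finite_pow (finite_two (W.baseChange F)) k
  have huniv : (Set.univ : Set (Pt F W)).Finite := by
    refine (hr.biUnion (t := fun Q => {P : Pt F W | (2 ^ k : ℕ) • P = Q}) fun Q _ =>
      fib_fin hT Q).subset fun P _ => ?_
    rw [Set.mem_iUnion₂]
    refine ⟨(2 ^ k : ℕ) • P, ?_, rfl⟩
    refine ⟨fun M => ⟨comp W M P, fun τ => act_comp W M τ P⟩, ?_⟩
    show ∑ M : Ms F, comp W M P = (2 ^ k : ℕ) • P
    rw [sum_comp W hF, hk]
  exact Set.finite_univ_iff.1 huniv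

end Pool.Agent.T9h30.MQ
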