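import Pool.Agent.T9h30.MQ.Loc

/-!
# The `L`-function of the twists of `X_0(49)` over a multiquadratic field
-/

set_option autoImplicit false
set_option linter.unusedSectionVars false

open scoped Classical

namespace Pool.Agent.T9h30.MQ

open NumberField IsDedekindDomain WeierstrassCurve Pool.Agent.W189.NF
open Pool.Agent.H921R2.TatePole Pool.Agent.H82R3.EK
open Pool.Agent.Y698 Pool.Agent.Y698.SG

lemma gen_Q : Gen ℚ := by
  unfold Gen
  rw [eq_top_iff]
  intro x _
  exact IntermediateField.algebraMap_mem _ x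

lemma Ms_Q (M : Ms ℚ) : (M : ℕ) = 1 := by
  obtain ⟨x, hx⟩ := M.2.2
  exact eq_one_of_sq M.2.1 (by exact_mod_cast hx)

variable {F : Type} [Field F] [NumberField F]

/-- the Euler product over the rational primes -/
theorem LS_hasProd (hF : Gen F) [Fintype (Ms F)] {D : ℕ} (hD : Ad D) {s : ℂ} (hs : 2 < s.re) :
    HasProd (fun p : Nat.Primes => ∏ M : Ms F, EF (ep (tw M D) p) s p)
      ((EX F ((D / 4 : ℕ) : F)).LSeries s) := by
  have h2 := (LSeries_hasProd (EX F ((D / 4 : ℕ) : F)) hs).2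
  have h3 := (Equiv.sigmaFiberEquiv (below (K := F))).hasProd_iff.2 h2
  have h4 := h3.sigma (g := fun q : Nat.Primes =>
      ∏ v : {v : HeightOneSpectrum (𝓞 F) // below v = q}, LFD (K := F) (D / 4) s v.1)
      (fun q => hasProd_fintype _)
  have h5 : (fun p : Nat.Primes => ∏ M : Ms F, EF (ep (tw M D) p) s p) = fun q : Nat.Primes =>
      ∏ v : {v : HeightOneSpectrum (𝓞 F) // below v = q}, LFD (K := F) (D / 4) s v.1 := by
    funext p
    exact (prod_places hF hD s p).symm
  rw [h5]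
  exact h4

theorem LQ_hasProd {D : ℕ} (hD : Ad D) {s : ℂ} (hs : 2 < s.re) :
    HasProd (fun p : Nat.Primes => EF (ep D p) s p) ((EX ℚ ((D / 4 : ℕ) : ℚ)).LSeries s) := by
  have hfin := finite_Ms gen_Q
  let _ : Fintype (Ms ℚ) := Fintype.ofFinite _
  have h1 := LS_hasProd gen_Q hD hs
  have h2 : (fun p : Nat.Primes => EF (ep D p) s p) =
      fun p : Nat.Primes => ∏ M : Ms ℚ, EF (ep (tw M D) p) s p := by
    funext p
    have h3 : ∀ M : Ms ℚ, EF (ep (tw M D) p) s p = EF (ep D p) s p := by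
      intro M
      rw [Ms_Q M, tw_one]
    have h4 : Fintype.card (Ms ℚ) = 1 := by
      rw [← Nat.card_eq_fintype_card, card_Ms gen_Q]
      exact Module.finrank_self ℚ
    rw [Finset.prod_congr rfl fun M _ => h3 M, Finset.prod_const, Finset.card_univ, h4, pow_one]
  rw [h2]
  exact h1

/-- **the `L`-function over a multiquadratic field is the product of the `L`-functions of the twists** -/
theorem LS_prod (hF : Gen F) [Fintype (Ms F)] {D : ℕ} (hD : Ad D) {s : ℂ} (hs : 2 < s.re) :
    (EX F ((D / 4 : ℕ) : F)).LSeries s =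
      ∏ M : Ms F, (EX ℚ ((tw M D / 4 : ℕ) : ℚ)).LSeries s := by
  have h1 := LS_hasProd hF hD hs
  have h2 : HasProd (fun p : Nat.Primes => ∏ M : Ms F, EF (ep (tw M D) p) s p)
      (∏ M : Ms F, (EX ℚ ((tw M D / 4 : ℕ) : ℚ)).LSeries s) :=
    hasProd_prod fun M _ => LQ_hasProd (M.2.1.tw hD) hs
  exact h1.unique h2

end Pool.Agent.T9h30.MQ
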