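import Pool.Agent.T9h30.MQ.Dual

/-!
# Multiquadratic fields: adjoining a square root
-/

set_option autoImplicit false
set_option linter.unusedSectionVars false

open scoped Classical

namespace Pool.Agent.T9h30.MQ

variable {F : Type} [Field F] [NumberField F] {F' : Type} [Field F'] [NumberField F'] [Algebra F F']

theorem gen_quad (hF : Gen F) {d : ℕ} (hd : Ad d) {x : F'} (hx : x ^ 2 = (d : F'))
    (hgen : ∀ y : F', ∃ a b : F, y = algebraMap F F' a + algebraMap F F' b * x) : Gen F' := by
  unfold Gen
  rw [eq_top_iff]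
  intro y _
  set S' : Set F' := {x : F' | ∃ M : ℕ, Ad M ∧ x ^ 2 = (M : F')} with hS'
  have h1 : ∀ z ∈ IntermediateField.adjoin ℚ {x : F | ∃ M : ℕ, Ad M ∧ x ^ 2 = (M : F)},
      algebraMap F F' z ∈ IntermediateField.adjoin ℚ S' := by
    intro z hz
    induction hz using IntermediateField.adjoin_induction with
    | mem x hx =>
      obtain ⟨M, hM, hx⟩ := hx
      refine IntermediateField.subset_adjoin _ _ ⟨M, hM, ?_⟩
      rw [← map_pow, hx, map_natCast]
    | algebraMap x =>
      have : algebraMap F F' (algebraMap ℚ F x) = algebraMap ℚ F' x := by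
        rw [eq_ratCast, eq_ratCast, map_ratCast]
      rw [this]
      exact IntermediateField.algebraMap_mem _ x
    | add x y _ _ hx hy => rw [map_add]; exact add_mem hx hy
    | inv x _ hx => rw [map_inv₀]; exact inv_mem hx
    | mul x y _ _ hx hy => rw [map_mul]; exact mul_mem hx hy
  have h2 : ∀ z : F, algebraMap F F' z ∈ IntermediateField.adjoin ℚ S' := by
    intro z
    refine h1 z ?_
    rw [show IntermediateField.adjoin ℚ {x : F | ∃ M : ℕ, Ad M ∧ x ^ 2 = (M : F)} = ⊤ from hF]
    exact IntermediateField.mem_top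
  obtain ⟨a, b, rfl⟩ := hgen y
  exact add_mem (h2 a) (mul_mem (h2 b) (IntermediateField.subset_adjoin _ _ ⟨d, hd, hx⟩))

/-- the squares in `F(√d)` -/
theorem Ms_quad {d : ℕ} (hd : Ad d) {x : F'} (hx : x ^ 2 = (d : F'))
    (hgen : ∀ y : F', ∃ a b : F, y = algebraMap F F' a + algebraMap F F' b * x) (M : ℕ) :
    M ∈ Ms F' ↔ M ∈ Ms F ∨ ∃ M' ∈ Ms F, M = tw M' d := by
  have hinj : Function.Injective (algebraMap F F') := (algebraMap F F').injective
  have hup : ∀ M ∈ Ms F, M ∈ Ms F' := by
    rintro M ⟨hM, y, hy⟩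
    exact ⟨hM, algebraMap F F' y, by rw [← map_pow, hy, map_natCast]⟩
  have hdm : d ∈ Ms F' := ⟨hd, x, hx⟩
  constructor
  · rintro ⟨hM, y, hy⟩
    obtain ⟨a, b, rfl⟩ := hgen y
    -- `a² + b² d + 2 a b x = M`
    have h1 : algebraMap F F' (2 * a * b) * x = algebraMap F F' (M - a ^ 2 - b ^ 2 * d) := by
      simp only [map_sub, map_mul, map_pow, map_natCast, map_ofNat]
      linear_combination hy - (algebraMap F F' b) ^ 2 * hx
    by_cases hab : a * b = 0
    · rcases mul_eq_zero.1 hab with h | h
      · -- `M = b² d`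
        right
        refine ⟨tw d M, ?_, ?_⟩
        · refine ⟨hd.tw hM, b * d / (Nat.gcd d M : ℕ), ?_⟩
          apply hinj
          have hg : ((Nat.gcd d M : ℕ) : F') ≠ 0 := Nat.cast_ne_zero.2 hd.gcd_ne
          have h2 := congrArg (fun z : ℕ => (z : F')) (tw_mul d M)
          push_cast at h2
          rw [h, map_zero, zero_add] at hy
          rw [map_pow, map_div₀, map_mul, map_natCast, map_natCast, map_natCast, div_pow,
            div_eq_iff (pow_ne_zero 2 hg)]
          rw [h2, ← hy]
          linear_combination (-(d : F') * (algebraMap F F' b) ^ 2) * hx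
        · rw [tw_comm (tw d M) d, tw_cancel hd hM]
      · left
        refine ⟨hM, a, ?_⟩
        apply hinj
        rw [h, map_zero, zero_mul, add_zero] at hy
        rw [map_pow, map_natCast]
        exact hy
    · -- `x` is in `F`
      left
      have h2 : (2 * a * b : F) ≠ 0 := by
        rw [mul_assoc]
        exact mul_ne_zero two_ne_zero hab
      have h3 : x = algebraMap F F' ((M - a ^ 2 - b ^ 2 * d) / (2 * a * b)) := by
        rw [map_div₀, eq_div_iff ((map_ne_zero _).2 h2), mul_comm]
        exact h1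
      refine ⟨hM, a + b * ((M - a ^ 2 - b ^ 2 * d) / (2 * a * b)), ?_⟩
      apply hinj
      rw [map_pow, map_add, map_mul, ← h3, map_natCast]
      exact hy
  · rintro (h | ⟨M', h, rfl⟩)
    · exact hup M h
    · exact Ms_tw (hup M' h) hdm

end Pool.Agent.T9h30.MQ
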