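import Pool.Agent.T9h30.MQ.Fld

/-!
# Multiquadratic fields: all the characters come from square roots
-/

set_option autoImplicit false
set_option linter.unusedSectionVars false

open scoped Classical

namespace Pool.Agent.T9h30.MQ

section abstr

variable {G : Type} [CommGroup G] [Finite G]

lemma dual_top (X : Subgroup (G →* ℂˣ)) (h : ∀ g : G, (∀ φ ∈ X, φ g = 1) → g = 1) : X = ⊤ := by
  have h1 : (CommGroup.subgroupOrderIsoSubgroupMonoidHom G ℂ).symm (OrderDual.toDual X) = ⊥ := by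
    rw [Subgroup.eq_bot_iff_forall]
    intro g hg
    exact h g ((CommGroup.mem_subgroupOrderIsoSubgroupMonoidHom_symm_iff ℂ X g).1 hg)
  have h2 := congrArg (CommGroup.subgroupOrderIsoSubgroupMonoidHom G ℂ) h1
  rw [OrderIso.apply_symm_apply] at h2
  have h3 := congrArg OrderDual.ofDual h2
  rw [OrderDual.ofDual_toDual] at h3
  rw [h3]
  ext φ
  rw [CommGroup.mem_subgroupOrderIsoSubgroupMonoidHom_iff]
  refine ⟨fun _ => Subgroup.mem_top _, fun _ g hg => ?_⟩
  rw [Subgroup.mem_bot.1 hg, map_one]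

lemma card_perp (H : Subgroup G) :
    Nat.card H * Nat.card {φ : G →* ℂˣ // ∀ g ∈ H, φ g = 1} = Nat.card G := by
  have h1 := CommGroup.card_subgroupOrderIsoSubgroupMonoidHom ℂ H
  have h2 : Nat.card {φ : G →* ℂˣ // ∀ g ∈ H, φ g = 1} =
      Nat.card (CommGroup.subgroupOrderIsoSubgroupMonoidHom G ℂ H).ofDual := by
    refine Nat.card_congr (Equiv.subtypeEquivRight fun φ => ?_)
    exact (CommGroup.mem_subgroupOrderIsoSubgroupMonoidHom_iff ℂ H φ).symm
  rw [h2, h1, mul_comm]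
  exact (Subgroup.card_eq_card_quotient_mul_card_subgroup H).symm

lemma mem_perp (H : Subgroup G) (g : G) (h : ∀ φ : G →* ℂˣ, (∀ y ∈ H, φ y = 1) → φ g = 1) :
    g ∈ H := (CommGroup.forall_monoidHom_apply_eq_one_iff ℂ H g).1 h

lemma card_dual : Nat.card (G →* ℂˣ) = Nat.card G :=
  CommGroup.card_monoidHom_of_hasEnoughRootsOfUnity G ℂ

end abstr

variable {F : Type} [Field F] [NumberField F]

/-- the commutative Galois group -/
@[reducible] def cgrp (hF : Gen F) : CommGroup Gal(F/ℚ) :=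
  { (inferInstance : Group Gal(F/ℚ)) with mul_comm := gal_comm hF }

/-- the characters of square roots -/
def XS : Subgroup (Gal(F/ℚ) →* ℂˣ) where
  carrier := Set.range chi
  mul_mem' := by
    rintro _ _ ⟨M, rfl⟩ ⟨D, rfl⟩
    exact ⟨_, chi_tw M D⟩
  one_mem' := by
    refine ⟨⟨1, Ms_one⟩, ?_⟩
    ext1 σ
    rw [MonoidHom.one_apply, chi_eq_one_iff ⟨1, Ms_one⟩ (x := (1 : F)) (by simp)]
    exact map_one σ
  inv_mem' := by
    rintro _ ⟨M, rfl⟩
    refine ⟨M, ?_⟩
    ext1 σ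
    rw [MonoidHom.inv_apply]
    rcases chi_or M σ with h | h
    · rw [h, inv_one]
    · rw [h]
      ext
      norm_num

theorem XS_top (hF : Gen F) : (XS : Subgroup (Gal(F/ℚ) →* ℂˣ)) = ⊤ := by
  refine @dual_top Gal(F/ℚ) (cgrp hF) inferInstance XS fun σ h => ?_
  refine gal_ext hF fun M hM x hx => ?_
  rw [AlgEquiv.one_apply]
  exact (chi_eq_one_iff ⟨M, hM⟩ hx σ).1 (h _ ⟨⟨M, hM⟩, rfl⟩)

theorem chi_surj (hF : Gen F) : Function.Surjective (chi (F := F)) := by
  intro φ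
  have h : φ ∈ (XS : Subgroup (Gal(F/ℚ) →* ℂˣ)) := by
    rw [XS_top hF]
    exact Subgroup.mem_top φ
  exact h

/-- the bijection with the characters -/
noncomputable def chiE (hF : Gen F) : Ms F ≃ (Gal(F/ℚ) →* ℂˣ) :=
  Equiv.ofBijective chi ⟨chi_inj hF, chi_surj hF⟩

theorem card_Ms (hF : Gen F) : Nat.card (Ms F) = Module.finrank ℚ F := by
  have := gen_galois hF
  rw [Nat.card_congr (chiE hF), ← IsGalois.card_aut_eq_finrank]
  exact @card_dual Gal(F/ℚ) (cgrp hF) inferInstance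

theorem finite_Ms (hF : Gen F) : Finite (Ms F) := by
  refine Nat.finite_of_card_ne_zero ?_
  rw [card_Ms hF]
  exact Module.finrank_pos.ne'

/-- the annihilator of a subgroup of the Galois group -/
theorem card_perp_Ms (hF : Gen F) (H : Subgroup Gal(F/ℚ)) :
    Nat.card H * Nat.card {M : Ms F // ∀ σ ∈ H, chi M σ = 1} = Module.finrank ℚ F := by
  have := gen_galois hF
  have h1 : Nat.card H * Nat.card {φ : Gal(F/ℚ) →* ℂˣ // ∀ g ∈ H, φ g = 1} =
      Nat.card Gal(F/ℚ) := @card_perp Gal(F/ℚ) (cgrp hF) inferInstance H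
  rw [IsGalois.card_aut_eq_finrank] at h1
  rw [← h1]
  congr 1
  exact Nat.card_congr ((chiE hF).subtypeEquiv fun M => Iff.rfl)

theorem mem_of_perp_Ms (hF : Gen F) (H : Subgroup Gal(F/ℚ)) (σ : Gal(F/ℚ))
    (h : ∀ M : Ms F, (∀ τ ∈ H, chi M τ = 1) → chi M σ = 1) : σ ∈ H := by
  refine @mem_perp Gal(F/ℚ) (cgrp hF) inferInstance H σ fun φ hφ => ?_
  obtain ⟨M, rfl⟩ := chi_surj hF φ
  exact h M hφ

end Pool.Agent.T9h30.MQ
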