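import Pool.Agent.T9h30.MQ.Frob
import Pool.Agent.W165.CE.Euler

/-!
# Multiquadratic fields: the product over the characters at a prime
-/

set_option autoImplicit false
set_option linter.unusedSectionVars false

open scoped Classical

namespace Pool.Agent.T9h30.MQ

open NumberField IsDedekindDomain
open Pool.Agent.H921R2.TatePole Pool.Agent.H82R3.EK
open W165.CE (pw)

variable {F : Type} [Field F] [NumberField F]

section
variable {v : HeightOneSpectrum (𝓞 F)} {φ : Gal(F/ℚ)}
  (hφ : ∀ x : 𝓞 F, φ • x - x ^ (below v : ℕ) ∈ v.asIdeal)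

include hφ

/-- the characters of the numbers prime to `p` at the Frobenius -/
theorem frob_count (hF : Gen F) [Fintype (Mp F (below v : ℕ))] :
    (deg v = 1 ∧ ∀ M ∈ Mp F (below v : ℕ), chi M φ = 1) ∨
    (deg v = 2 ∧ (Finset.univ.filter fun M : Mp F (below v : ℕ) => chi M.1 φ = 1).card =
        Fintype.card {w : HeightOneSpectrum (𝓞 F) // below w = below v} ∧
      (Finset.univ.filter fun M : Mp F (below v : ℕ) => ¬ chi M.1 φ = 1).card =
        Fintype.card {w : HeightOneSpectrum (𝓞 F) // below w = below v}) := by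
  have hpos := (nm_eq v).2.1
  have hle := deg_le_two hφ hF
  have hcount := count_Mp hF v
  by_cases h1 : deg v = 1
  · left
    refine ⟨h1, fun M hM => ?_⟩
    exact inertia_fix M hM ((deg_one_iff hφ).1 h1)
  · right
    have h2 : deg v = 2 := by omega
    refine ⟨h2, ?_⟩
    obtain ⟨M₁, hM1, hM1'⟩ : ∃ M₁ ∈ Mp F (below v : ℕ), chi M₁ φ ≠ 1 := by
      by_contra hcon
      push Not at hcon
      apply h1
      rw [deg_one_iff hφ]
      refine mem_of_perp_Ms hF (In v) φ fun M hM => ?_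
      exact hcon M ((In_perp hF v).2 M hM)
    have hneg : chi M₁ φ = -1 := (chi_or M₁ φ).resolve_left hM1'
    have htw : ∀ M ∈ Mp F (below v : ℕ), (⟨tw M₁ M, Ms_tw M₁.2 M.2⟩ : Ms F) ∈
        Mp F (below v : ℕ) := by
      intro M hM
      rw [mem_Mp] at hM hM1 ⊢
      rw [dvd_tw M₁.2.1 M.2.1 (below v).2]
      tauto
    have hne : (1 : ℂˣ) ≠ -1 := by
      intro h
      have h5 := congrArg (fun u : ℂˣ => (u : ℂ)) h
      norm_num at h5
    have hchi : ∀ M : Ms F, chi (⟨tw M₁ M, Ms_tw M₁.2 M.2⟩ : Ms F) φ = 1 ↔ ¬ chi M φ = 1 := by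
      intro M
      rw [chi_tw, MonoidHom.mul_apply, hneg]
      rcases chi_or M φ with h | h
      · rw [h, mul_one]
        exact iff_of_false hne.symm (fun h' => h' rfl)
      · rw [h, neg_mul_neg, one_mul]
        exact iff_of_true rfl hne.symm
    have hcard : (Finset.univ.filter fun M : Mp F (below v : ℕ) => chi M.1 φ = 1).card =
        (Finset.univ.filter fun M : Mp F (below v : ℕ) => ¬ chi M.1 φ = 1).card := by
      refine Finset.card_nbij' (fun M => ⟨⟨tw M₁ M.1, Ms_tw M₁.2 M.1.2⟩, htw M.1 M.2⟩)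
        (fun M => ⟨⟨tw M₁ M.1, Ms_tw M₁.2 M.1.2⟩, htw M.1 M.2⟩) ?_ ?_ ?_ ?_
      · intro M hM
        rw [Finset.mem_coe, Finset.mem_filter] at hM ⊢
        refine ⟨Finset.mem_univ _, ?_⟩
        show ¬ chi (⟨tw M₁ M.1, Ms_tw M₁.2 M.1.2⟩ : Ms F) φ = 1
        rw [hchi]
        exact not_not.2 hM.2
      · intro M hM
        rw [Finset.mem_coe, Finset.mem_filter] at hM ⊢
        refine ⟨Finset.mem_univ _, ?_⟩
        show chi (⟨tw M₁ M.1, Ms_tw M₁.2 M.1.2⟩ : Ms F) φ = 1
        rw [hchi]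
        exact hM.2
      · intro M _
        apply Subtype.ext
        apply Subtype.ext
        exact tw_cancel M₁.2.1 M.1.2.1
      · intro M _
        apply Subtype.ext
        apply Subtype.ext
        exact tw_cancel M₁.2.1 M.1.2.1
    have hsum := Finset.card_filter_add_card_filter_not (s := (Finset.univ : Finset (Mp F (below v : ℕ))))
      (fun M => chi M.1 φ = 1)
    rw [Finset.card_univ, ← Nat.card_eq_fintype_card, ← hcount, h2] at hsum
    omega

/-- the product over the characters -/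
theorem prod_chi (hF : Gen F) [Fintype (Mp F (below v : ℕ))] (b e y : ℂ) :
    ∏ M : Mp F (below v : ℕ), (1 - b * (((chi M.1 φ : ℂˣ) : ℂ) * y) +
      e * (((chi M.1 φ : ℂˣ) : ℂ) * y) ^ 2)⁻¹ =
    ((1 - pw b e (deg v) * y ^ deg v + e ^ deg v * (y ^ deg v) ^ 2)⁻¹) ^
      Fintype.card {w : HeightOneSpectrum (𝓞 F) // below w = below v} := by
  have hcount := count_Mp hF v
  rcases frob_count hφ hF with ⟨h1, h2⟩ | ⟨h1, h2, h3⟩
  · rw [Finset.prod_congr rfl (g := fun _ => (1 - pw b e (deg v) * y ^ deg v +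
      e ^ deg v * (y ^ deg v) ^ 2)⁻¹), Finset.prod_const, Finset.card_univ,
      ← Nat.card_eq_fintype_card, ← hcount, h1, mul_one]
    intro M _
    rw [h2 M.1 M.2, h1, Units.val_one, one_mul]
    have e1 : pw b e 1 = b := rfl
    rw [e1, pow_one, pow_one]
  · rw [← Finset.prod_filter_mul_prod_filter_not Finset.univ
      (fun M : Mp F (below v : ℕ) => chi M.1 φ = 1)]
    have e1 : ∏ M ∈ Finset.univ.filter (fun M : Mp F (below v : ℕ) => chi M.1 φ = 1),
        (1 - b * (((chi M.1 φ : ℂˣ) : ℂ) * y) + e * (((chi M.1 φ : ℂˣ) : ℂ) * y) ^ 2)⁻¹ =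
        ((1 - b * y + e * y ^ 2)⁻¹) ^
          Fintype.card {w : HeightOneSpectrum (𝓞 F) // below w = below v} := by
      rw [← h2, ← Finset.prod_const]
      refine Finset.prod_congr rfl fun M hM => ?_
      rw [(Finset.mem_filter.1 hM).2, Units.val_one, one_mul]
    have e2 : ∏ M ∈ Finset.univ.filter (fun M : Mp F (below v : ℕ) => ¬ chi M.1 φ = 1),
        (1 - b * (((chi M.1 φ : ℂˣ) : ℂ) * y) + e * (((chi M.1 φ : ℂˣ) : ℂ) * y) ^ 2)⁻¹ =
        ((1 - b * (-y) + e * (-y) ^ 2)⁻¹) ^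
          Fintype.card {w : HeightOneSpectrum (𝓞 F) // below w = below v} := by
      rw [← h3, ← Finset.prod_const]
      refine Finset.prod_congr rfl fun M hM => ?_
      rw [(chi_or M.1 φ).resolve_left (Finset.mem_filter.1 hM).2, Units.val_neg, Units.val_one,
        neg_one_mul]
    rw [e1, e2, ← mul_pow, ← mul_inv, h1]
    congr 2
    have e3 : pw b e 2 = b * b - e * 2 := rfl
    rw [e3]
    ring

end

end Pool.Agent.T9h30.MQ
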