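import Mathlib

/-!
# Multiquadratic fields ramified at primes `≡ 1 mod 4` only: squares and characters
-/

set_option autoImplicit false
set_option linter.unusedSectionVars false

open scoped Classical

namespace Pool.Agent.T9h30.MQ

open Pointwise

/-! ### Squarefree numbers with all prime factors `1 mod 4` -/

/-- `D` is squarefree and all its prime factors are `≡ 1 mod 4`. -/
def Ad (D : ℕ) : Prop := Squarefree D ∧ ∀ p ∈ D.primeFactors, p % 4 = 1

/-- the squarefree part of `M D`, for squarefree `M` and `D` -/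
def tw (M D : ℕ) : ℕ := M * D / Nat.gcd M D ^ 2

lemma gcd_sq_dvd (M D : ℕ) : Nat.gcd M D ^ 2 ∣ M * D := by
  rw [sq]
  exact mul_dvd_mul (Nat.gcd_dvd_left _ _) (Nat.gcd_dvd_right _ _)

lemma tw_mul (M D : ℕ) : tw M D * Nat.gcd M D ^ 2 = M * D := Nat.div_mul_cancel (gcd_sq_dvd M D)

lemma tw_comm (M D : ℕ) : tw M D = tw D M := by
  unfold tw
  rw [mul_comm, Nat.gcd_comm]

lemma Ad.ne {D : ℕ} (h : Ad D) : D ≠ 0 := h.1.ne_zero

lemma Ad.one : Ad 1 := ⟨squarefree_one, by simp⟩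

lemma tw_one (D : ℕ) : tw 1 D = D := by simp [tw]

lemma tw_self {D : ℕ} (h : D ≠ 0) : tw D D = 1 := by
  unfold tw
  rw [Nat.gcd_self, ← sq, Nat.div_self (by positivity)]

lemma Ad.gcd_ne {M D : ℕ} (hM : Ad M) : Nat.gcd M D ≠ 0 := fun h => hM.ne (Nat.gcd_eq_zero_iff.1 h).1

/-- divisibility of the squarefree part -/
lemma dvd_tw {M D p : ℕ} (hM : Ad M) (hD : Ad D) (hp : p.Prime) :
    p ∣ tw M D ↔ ¬ (p ∣ M ↔ p ∣ D) := by
  have key : ∀ {A : ℕ}, Squarefree A → (p ∣ A ↔ A.factorization p = 1) := by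
    intro A hA
    rw [hp.dvd_iff_one_le_factorization hA.ne_zero]
    have := hA.natFactorization_le_one p
    omega
  have hg : Squarefree (Nat.gcd M D) := hM.1.squarefree_of_dvd (Nat.gcd_dvd_left _ _)
  have hg0 := hg.ne_zero
  have ht0 : tw M D ≠ 0 := by
    intro h
    have := tw_mul M D
    rw [h, zero_mul] at this
    exact mul_ne_zero hM.ne hD.ne this.symm
  have h1 := congrArg (fun x : ℕ => x.factorization p) (tw_mul M D)
  rw [Nat.factorization_mul ht0 (pow_ne_zero 2 hg0), Nat.factorization_mul hM.ne hD.ne,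
    Nat.factorization_pow] at h1
  simp only [Finsupp.coe_add, Finsupp.coe_smul, Pi.add_apply, Pi.smul_apply, smul_eq_mul] at h1
  have hMp := hM.1.natFactorization_le_one p
  have hDp := hD.1.natFactorization_le_one p
  have h2 : (Nat.gcd M D).factorization p = min (M.factorization p) (D.factorization p) := by
    rw [Nat.factorization_gcd hM.ne hD.ne]
    rfl
  rw [h2] at h1
  rw [hp.dvd_iff_one_le_factorization ht0, key hM.1, key hD.1]
  omega

lemma Ad.tw {M D : ℕ} (hM : Ad M) (hD : Ad D) : Ad (tw M D) := by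
  have ht0 : MQ.tw M D ≠ 0 := by
    intro h
    have := tw_mul M D
    rw [h, zero_mul] at this
    exact mul_ne_zero hM.ne hD.ne this.symm
  refine ⟨?_, fun p hp => ?_⟩
  · rw [Nat.squarefree_iff_factorization_le_one ht0]
    intro p
    have hg : Squarefree (Nat.gcd M D) := hM.1.squarefree_of_dvd (Nat.gcd_dvd_left _ _)
    have hg0 := hg.ne_zero
    have h1 := congrArg (fun x : ℕ => x.factorization p) (tw_mul M D)
    rw [Nat.factorization_mul ht0 (pow_ne_zero 2 hg0), Nat.factorization_mul hM.ne hD.ne,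
      Nat.factorization_pow] at h1
    simp only [Finsupp.coe_add, Finsupp.coe_smul, Pi.add_apply, Pi.smul_apply, smul_eq_mul] at h1
    have hMp := hM.1.natFactorization_le_one p
    have hDp := hD.1.natFactorization_le_one p
    have h2 : (Nat.gcd M D).factorization p = min (M.factorization p) (D.factorization p) := by
      rw [Nat.factorization_gcd hM.ne hD.ne]
      rfl
    rw [h2] at h1
    omega
  · have hpp := Nat.prime_of_mem_primeFactors hp
    have h1 := (dvd_tw hM hD hpp).1 (Nat.dvd_of_mem_primeFactors hp)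
    by_cases h2 : p ∣ M
    · exact hM.2 p (Nat.mem_primeFactors.2 ⟨hpp, h2, hM.ne⟩)
    · have h3 : p ∣ D := by
        by_contra h3
        exact h1 ⟨fun h => absurd h h2, fun h => absurd h h3⟩
      exact hD.2 p (Nat.mem_primeFactors.2 ⟨hpp, h3, hD.ne⟩)

lemma ext_of {M D : ℕ} (hM : Ad M) (hD : Ad D) (h : ∀ p : ℕ, p.Prime → (p ∣ M ↔ p ∣ D)) : M = D := by
  rw [← Nat.prod_primeFactors_of_squarefree hM.1, ← Nat.prod_primeFactors_of_squarefree hD.1]
  congr 1
  ext p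
  rw [Nat.mem_primeFactors, Nat.mem_primeFactors]
  constructor
  · rintro ⟨h1, h2, -⟩
    exact ⟨h1, (h p h1).1 h2, hD.ne⟩
  · rintro ⟨h1, h2, -⟩
    exact ⟨h1, (h p h1).2 h2, hM.ne⟩

lemma tw_tw {A M D : ℕ} (hA : Ad A) (hM : Ad M) (hD : Ad D) : tw (tw A M) D = tw A (tw M D) := by
  refine ext_of ((hA.tw hM).tw hD) (hA.tw (hM.tw hD)) fun p hp => ?_
  rw [dvd_tw (hA.tw hM) hD hp, dvd_tw hA hM hp, dvd_tw hA (hM.tw hD) hp, dvd_tw hM hD hp]
  tauto

lemma tw_cancel {A M : ℕ} (hA : Ad A) (hM : Ad M) : tw A (tw A M) = M := by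
  rw [← tw_tw hA hA hM, tw_self hA.ne, tw_one]

lemma eq_of_tw {A M : ℕ} (hA : Ad A) (hM : Ad M) (h : tw A M = 1) : A = M := by
  refine ext_of hA hM fun p hp => ?_
  by_contra h1
  have h2 := (dvd_tw hA hM hp).2 h1
  rw [h] at h2
  exact hp.one_lt.ne' (Nat.dvd_one.1 h2)

lemma Ad.mod4 {D : ℕ} (h : Ad D) : D % 4 = 1 := by
  have h1 : ∀ S : Finset ℕ, (∀ p ∈ S, p % 4 = 1) → (∏ p ∈ S, p) % 4 = 1 := by
    intro S
    induction S using Finset.induction_on with
    | empty => intro _; simp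
    | insert q S hq ih =>
      intro hS
      rw [Finset.prod_insert hq, Nat.mul_mod, hS q (Finset.mem_insert_self _ _),
        ih fun p hp => hS p (Finset.mem_insert_of_mem hp)]
  have h2 := h1 _ h.2
  rwa [Nat.prod_primeFactors_of_squarefree h.1] at h2

/-- a number of the class which is a rational square is one -/
lemma eq_one_of_sq {M : ℕ} (h : Ad M) {q : ℚ} (hq : q ^ 2 = M) : M = 1 := by
  have h1 : IsSquare ((M : ℕ) : ℚ) := ⟨q, by rw [← hq, sq]⟩
  rw [Rat.isSquare_natCast_iff] at h1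
  obtain ⟨r, hr⟩ := h1
  have h2 : IsUnit r := by
    have := h.1
    exact this r ⟨1, by rw [mul_one]; exact hr⟩
  rw [Nat.isUnit_iff] at h2
  rw [hr, h2]

/-! ### The fields -/

variable (F : Type) [Field F] [NumberField F]

/-- The numbers `M` of the class which are squares in `F`. -/
def Ms : Set ℕ := {M | Ad M ∧ ∃ x : F, x ^ 2 = (M : F)}

/-- `F` is generated by square roots of numbers of the class: `F` is a multiquadratic field in which
only primes `≡ 1 mod 4` are ramified. -/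
def Gen : Prop := IntermediateField.adjoin ℚ {x : F | ∃ M : ℕ, Ad M ∧ x ^ 2 = (M : F)} = ⊤

variable {F}

lemma Ms_one : 1 ∈ Ms F := ⟨Ad.one, 1, by simp⟩

lemma Ms_tw {M D : ℕ} (hM : M ∈ Ms F) (hD : D ∈ Ms F) : tw M D ∈ Ms F := by
  obtain ⟨x, hx⟩ := hM.2
  obtain ⟨y, hy⟩ := hD.2
  refine ⟨hM.1.tw hD.1, x * y / (Nat.gcd M D : ℕ), ?_⟩
  have hg : ((Nat.gcd M D : ℕ) : F) ≠ 0 := Nat.cast_ne_zero.2 hM.1.gcd_ne
  rw [div_pow, mul_pow, hx, hy, div_eq_iff (pow_ne_zero 2 hg)]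
  have := congrArg (fun z : ℕ => (z : F)) (tw_mul M D)
  push_cast at this
  exact this.symm

lemma root_ne {M : ℕ} (hM : M ≠ 0) {x : F} (hx : x ^ 2 = (M : F)) : x ≠ 0 := by
  rintro rfl
  rw [zero_pow two_ne_zero] at hx
  exact hM (by exact_mod_cast hx.symm)

lemma act_or {M : ℕ} {x : F} (hx : x ^ 2 = (M : F)) (σ : Gal(F/ℚ)) : σ x = x ∨ σ x = -x := by
  have h1 : (σ x) ^ 2 = x ^ 2 := by rw [← map_pow, hx, map_natCast]
  exact sq_eq_sq_iff_eq_or_eq_neg.1 h1

lemma neg_ne {x : F} (hx : x ≠ 0) : -x ≠ x := by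
  intro h
  have h1 : (2 : F) * x = 0 := by linear_combination -h
  rcases mul_eq_zero.1 h1 with h2 | h2
  · exact two_ne_zero h2
  · exact hx h2

theorem gen_galois (hF : Gen F) : IsGalois ℚ F := by
  have h1 : ∀ x ∈ {x : F | ∃ M : ℕ, Ad M ∧ x ^ 2 = (M : F)},
      IsIntegral ℚ x ∧ ((minpoly ℚ x).map (algebraMap ℚ F)).Splits := by
    rintro x ⟨M, -, hx⟩
    refine ⟨Algebra.IsIntegral.isIntegral x, ?_⟩
    have h2 : minpoly ℚ x ∣ (Polynomial.X ^ 2 - Polynomial.C (M : ℚ)) := by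
      apply minpoly.dvd
      rw [map_sub, map_pow, Polynomial.aeval_X, Polynomial.aeval_C, hx]
      simp
    have h3 : ((Polynomial.X ^ 2 - Polynomial.C (M : ℚ)).map (algebraMap ℚ F)).Splits := by
      have h4 : ((Polynomial.X ^ 2 - Polynomial.C (M : ℚ)).map (algebraMap ℚ F)) =
          (Polynomial.X - Polynomial.C x) * (Polynomial.X - Polynomial.C (-x)) := by
        rw [Polynomial.map_sub, Polynomial.map_pow, Polynomial.map_X, Polynomial.map_C]
        have h5 : algebraMap ℚ F (M : ℚ) = x ^ 2 := by rw [hx]; simp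
        rw [h5, Polynomial.C_pow, Polynomial.C_neg]
        ring
      rw [h4]
      exact (Polynomial.Splits.X_sub_C _).mul (Polynomial.Splits.X_sub_C _)
    have h6 : (Polynomial.X ^ 2 - Polynomial.C (M : ℚ)) ≠ 0 := Polynomial.X_pow_sub_C_ne_zero (by norm_num) _
    refine h3.of_dvd ?_ (Polynomial.map_dvd _ h2)
    exact (Polynomial.map_ne_zero_iff (algebraMap ℚ F).injective).2 h6
  have h2 : Normal ℚ F := by
    refine ⟨fun x => ?_⟩
    have hx : x ∈ IntermediateField.adjoin ℚ {x : F | ∃ M : ℕ, Ad M ∧ x ^ 2 = (M : F)} := by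
      rw [show IntermediateField.adjoin ℚ {x : F | ∃ M : ℕ, Ad M ∧ x ^ 2 = (M : F)} = ⊤ from hF]
      exact IntermediateField.mem_top
    exact IntermediateField.splits_of_mem_adjoin ℚ F h1 hx
  exact ⟨⟩

/-- two automorphisms that agree on the square roots are equal -/
lemma gal_ext (hF : Gen F) {σ τ : Gal(F/ℚ)}
    (h : ∀ M ∈ Ms F, ∀ x : F, x ^ 2 = (M : F) → σ x = τ x) : σ = τ := by
  have h1 : (σ : F →ₐ[ℚ] F) = (τ : F →ₐ[ℚ] F) := by
    have h2 : ∀ y ∈ IntermediateField.adjoin ℚ {x : F | ∃ M : ℕ, Ad M ∧ x ^ 2 = (M : F)},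
        σ y = τ y := by
      intro y hy
      induction hy using IntermediateField.adjoin_induction with
      | mem x hx =>
        obtain ⟨M, hM, hx⟩ := hx
        exact h M ⟨hM, x, hx⟩ x hx
      | algebraMap x => rw [AlgEquiv.commutes, AlgEquiv.commutes]
      | add x y _ _ hx hy => rw [map_add, map_add, hx, hy]
      | inv x _ hx => rw [map_inv₀, map_inv₀, hx]
      | mul x y _ _ hx hy => rw [map_mul, map_mul, hx, hy]
    ext y
    exact h2 y (by
      rw [show IntermediateField.adjoin ℚ {x : F | ∃ M : ℕ, Ad M ∧ x ^ 2 = (M : F)} = ⊤ from hF]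
      exact IntermediateField.mem_top)
  exact AlgEquiv.coe_toAlgHom_injective h1

lemma gal_sq (hF : Gen F) (σ : Gal(F/ℚ)) : σ * σ = 1 := by
  refine gal_ext hF fun M hM x hx => ?_
  rw [AlgEquiv.mul_apply, AlgEquiv.one_apply]
  rcases act_or hx σ with h | h
  · rw [h, h]
  · rw [h, map_neg, h, neg_neg]

lemma gal_comm (hF : Gen F) (σ τ : Gal(F/ℚ)) : σ * τ = τ * σ := by
  refine gal_ext hF fun M hM x hx => ?_
  rw [AlgEquiv.mul_apply, AlgEquiv.mul_apply]
  rcases act_or hx σ with h | h <;> rcases act_or hx τ with h' | h' <;> simp [h, h']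

/-- the sign with which `σ` acts on a square root -/
noncomputable def sg (σ : Gal(F/ℚ)) (x : F) : ℂˣ := if σ x = x then 1 else -1

lemma sg_mul {M : ℕ} (hM : M ≠ 0) {x : F} (hx : x ^ 2 = (M : F)) (σ τ : Gal(F/ℚ)) :
    sg (σ * τ) x = sg σ x * sg τ x := by
  have h0 := root_ne hM hx
  have hn := neg_ne h0
  unfold sg
  rw [AlgEquiv.mul_apply]
  rcases act_or hx σ with h | h <;> rcases act_or hx τ with h' | h' <;>
    simp [h, h', hn]

lemma sg_one (x : F) : sg (1 : Gal(F/ℚ)) x = 1 := by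
  unfold sg
  rw [if_pos (AlgEquiv.one_apply x)]

/-- the character attached to `M` -/
noncomputable def chi (M : Ms F) : Gal(F/ℚ) →* ℂˣ where
  toFun σ := sg σ M.2.2.choose
  map_one' := sg_one _
  map_mul' σ τ := sg_mul M.2.1.ne M.2.2.choose_spec σ τ

lemma chi_eq_one_iff (M : Ms F) {x : F} (hx : x ^ 2 = ((M : ℕ) : F)) (σ : Gal(F/ℚ)) :
    chi M σ = 1 ↔ σ x = x := by
  have h1 : (M.2.2.choose) ^ 2 = x ^ 2 := by rw [M.2.2.choose_spec, hx]
  have h2 : chi M σ = sg σ M.2.2.choose := rfl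
  have h3 : sg σ M.2.2.choose = 1 ↔ σ M.2.2.choose = M.2.2.choose := by
    unfold sg
    split_ifs with h
    · exact ⟨fun _ => h, fun _ => rfl⟩
    · refine ⟨fun h4 => ?_, fun h4 => absurd h4 h⟩
      have h5 := congrArg (fun u : ℂˣ => (u : ℂ)) h4
      norm_num at h5
  rw [h2, h3]
  rcases sq_eq_sq_iff_eq_or_eq_neg.1 h1 with h | h
  · rw [h]
  · rw [h, map_neg, neg_inj]

lemma chi_or (M : Ms F) (σ : Gal(F/ℚ)) : chi M σ = 1 ∨ chi M σ = -1 := by
  have h2 : chi M σ = sg σ M.2.2.choose := rfl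
  rw [h2]
  unfold sg
  split_ifs
  · exact Or.inl rfl
  · exact Or.inr rfl

lemma chi_neg_iff (M : Ms F) {x : F} (hx : x ^ 2 = ((M : ℕ) : F)) (σ : Gal(F/ℚ)) :
    chi M σ = -1 ↔ σ x = -x := by
  have h0 := root_ne M.2.1.ne hx
  have h1 := chi_eq_one_iff M hx σ
  have hne : (1 : ℂˣ) ≠ -1 := by
    intro h
    have h5 := congrArg (fun u : ℂˣ => (u : ℂ)) h
    norm_num at h5
  rcases chi_or M σ with h | h
  · rw [h] at h1 ⊢
    have h2 := h1.1 rfl
    rw [h2]
    exact iff_of_false hne (fun h3 => neg_ne h0 h3.symm)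
  · rw [h] at h1 ⊢
    refine iff_of_true rfl ?_
    rcases act_or hx σ with h2 | h2
    · exact absurd (h1.2 h2) hne.symm
    · exact h2

lemma chi_tw (M D : Ms F) : chi (⟨tw M D, Ms_tw M.2 D.2⟩ : Ms F) = chi M * chi D := by
  ext1 σ
  obtain ⟨x, hx⟩ := M.2.2
  obtain ⟨y, hy⟩ := D.2.2
  have hg : ((Nat.gcd M D : ℕ) : F) ≠ 0 := Nat.cast_ne_zero.2 M.2.1.gcd_ne
  have hz : (x * y / (Nat.gcd M D : ℕ)) ^ 2 = ((tw M D : ℕ) : F) := by
    rw [div_pow, mul_pow, hx, hy, div_eq_iff (pow_ne_zero 2 hg)]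
    have := congrArg (fun z : ℕ => (z : F)) (tw_mul M D)
    push_cast at this
    exact this.symm
  have h1 : σ (x * y / (Nat.gcd M D : ℕ)) = σ x * σ y / (Nat.gcd M D : ℕ) := by
    rw [map_div₀, map_mul, map_natCast]
  rw [MonoidHom.mul_apply]
  rcases chi_or M σ with h | h <;> rcases chi_or D σ with h' | h'
  · rw [h, h', one_mul, chi_eq_one_iff ⟨tw M D, _⟩ hz, h1, (chi_eq_one_iff M hx σ).1 h,
      (chi_eq_one_iff D hy σ).1 h']
  · rw [h, h', one_mul, chi_neg_iff ⟨tw M D, _⟩ hz, h1, (chi_eq_one_iff M hx σ).1 h,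
      (chi_neg_iff D hy σ).1 h']
    ring
  · rw [h, h', mul_one, chi_neg_iff ⟨tw M D, _⟩ hz, h1, (chi_neg_iff M hx σ).1 h,
      (chi_eq_one_iff D hy σ).1 h']
    ring
  · rw [h, h', neg_one_mul, neg_neg, chi_eq_one_iff ⟨tw M D, _⟩ hz, h1, (chi_neg_iff M hx σ).1 h,
      (chi_neg_iff D hy σ).1 h']
    ring

theorem chi_inj (hF : Gen F) : Function.Injective (chi (F := F)) := by
  intro M D h
  have hG := gen_galois hF
  have h1 : ∀ σ : Gal(F/ℚ), chi (⟨tw M D, Ms_tw M.2 D.2⟩ : Ms F) σ = 1 := by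
    intro σ
    rw [chi_tw, h, MonoidHom.mul_apply]
    rcases chi_or D σ with h | h
    · rw [h, one_mul]
    · rw [h, neg_mul_neg, one_mul]
  obtain ⟨z, hz⟩ := (Ms_tw M.2 D.2).2
  have h2 : ∀ σ : Gal(F/ℚ), σ z = z := fun σ => (chi_eq_one_iff ⟨tw M D, Ms_tw M.2 D.2⟩ hz σ).1 (h1 σ)
  obtain ⟨q, hq⟩ := (IsGalois.mem_range_algebraMap_iff_fixed (F := ℚ) (E := F) z).2 h2
  have h3 : q ^ 2 = ((tw M D : ℕ) : ℚ) := by
    apply (algebraMap ℚ F).injective
    rw [map_pow, hq, hz, map_natCast]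
  exact Subtype.ext (eq_of_tw M.2.1 D.2.1 (eq_one_of_sq (M.2.1.tw D.2.1) h3))

end Pool.Agent.T9h30.MQ
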