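import Pool.Agent.T9h30.MQ.Prm2

/-!
# Multiquadratic fields: the Frobenius elements
-/

set_option autoImplicit false
set_option linter.unusedSectionVars false

open scoped Classical

namespace Pool.Agent.T9h30.MQ

open NumberField IsDedekindDomain
open Pool.Agent.H921R2.TatePole Pool.Agent.H82R3.EK

open scoped NumberTheorySymbols

/-! ### symbols -/

lemma js_prod (a : ℤ) {M : ℕ} (hM : Squarefree M) : J(a | M) = ∏ q ∈ M.primeFactors, J(a | q) := by
  have h1 : ∀ S : Finset ℕ, (∀ q ∈ S, q ≠ 0) → J(a | ∏ q ∈ S, q) = ∏ q ∈ S, J(a | q) := by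
    intro S
    induction S using Finset.induction_on with
    | empty => intro _; simp
    | insert q S hq ih =>
      intro hS
      rw [Finset.prod_insert hq, Finset.prod_insert hq, jacobiSym.mul_right' a
        (hS q (Finset.mem_insert_self _ _)) (Finset.prod_ne_zero_iff.2 fun p hp =>
          hS p (Finset.mem_insert_of_mem hp)), ih fun p hp => hS p (Finset.mem_insert_of_mem hp)]
  have h2 := h1 M.primeFactors fun q hq => (Nat.prime_of_mem_primeFactors hq).ne_zero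
  rwa [Nat.prod_primeFactors_of_squarefree hM] at h2

lemma js_tw (a : ℤ) {M D : ℕ} (hM : Ad M) (hD : Ad D) (hg : a.gcd (Nat.gcd M D) = 1) :
    J(a | tw M D) = J(a | M) * J(a | D) := by
  have h0 : tw M D ≠ 0 := (hM.tw hD).ne
  have h1 := congrArg (fun b : ℕ => J(a | b)) (tw_mul M D)
  rw [jacobiSym.mul_right' a h0 (pow_ne_zero 2 hM.gcd_ne), jacobiSym.mul_right' a hM.ne hD.ne,
    jacobiSym.pow_right] at h1
  have h2 : J(a | Nat.gcd M D) ^ 2 = 1 := by
    rcases jacobiSym.eq_one_or_neg_one hg with h | h <;> rw [h] <;> norm_num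
  rw [h2, mul_one] at h1
  exact h1

variable {F : Type} [Field F] [NumberField F]

lemma under_eq (v : HeightOneSpectrum (𝓞 F)) : v.asIdeal.under ℤ = bi v := by
  have hl : v.asIdeal.LiesOver (bi v) := lies v
  exact hl.over.symm

/-- the Frobenius -/
theorem exists_frob (hF : Gen F) (v : HeightOneSpectrum (𝓞 F)) :
    ∃ φ : Gal(F/ℚ), ∀ x : 𝓞 F, φ • x - x ^ (below v : ℕ) ∈ v.asIdeal := by
  have hG := gen_galois hF
  have hvp := v.isPrime
  have hfin : Finite (𝓞 F ⧸ v.asIdeal) := Ideal.finiteQuotientOfFreeOfNeBot _ v.ne_bot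
  obtain ⟨φ, hφ⟩ := IsArithFrobAt.exists_of_isInvariant ℤ Gal(F/ℚ) v.asIdeal
  refine ⟨φ, fun x => ?_⟩
  have h1 := hφ x
  have h2 : Nat.card (ℤ ⧸ v.asIdeal.under ℤ) = (below v : ℕ) := by
    rw [under_eq, Nat.card_congr (Int.quotientSpanNatEquivZMod (below v : ℕ)).toEquiv, Nat.card_zmod]
  rw [h2] at h1
  exact h1

section
variable {v : HeightOneSpectrum (𝓞 F)} {φ : Gal(F/ℚ)}
  (hφ : ∀ x : 𝓞 F, φ • x - x ^ (below v : ℕ) ∈ v.asIdeal)

include hφ

/-- the square of the Frobenius is the identity on the residue field -/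
lemma frob_sq (hF : Gen F) (x : 𝓞 F) : x ^ ((below v : ℕ) ^ 2) - x ∈ v.asIdeal := by
  have h1 := hφ (φ • x)
  have h2 : φ • φ • x = x := by
    rw [smul_smul, gal_sq hF, one_smul]
  rw [h2] at h1
  have h3 : (φ • x) ^ (below v : ℕ) - (x ^ (below v : ℕ)) ^ (below v : ℕ) ∈ v.asIdeal :=
    Ideal.mem_of_dvd _ (sub_dvd_pow_sub_pow _ _ _) (hφ x)
  rw [sq, pow_mul]
  have h4 := v.asIdeal.add_mem h1 h3
  have e : x - (φ • x) ^ (below v : ℕ) + ((φ • x) ^ (below v : ℕ) -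
      (x ^ (below v : ℕ)) ^ (below v : ℕ)) = -((x ^ (below v : ℕ)) ^ (below v : ℕ) - x) := by ring
  rw [e] at h4
  exact v.asIdeal.neg_mem_iff.1 h4

omit hφ in
lemma deg_le_of {m : ℕ} (h : ∀ x : 𝓞 F, x ^ ((below v : ℕ) ^ m) - x ∈ v.asIdeal) (hm : 0 < m) :
    deg v ≤ m := by
  have hmax : v.asIdeal.IsMaximal := v.isMaximal
  have hfin : Finite (𝓞 F ⧸ v.asIdeal) := Ideal.finiteQuotientOfFreeOfNeBot _ v.ne_bot
  letI : Field (𝓞 F ⧸ v.asIdeal) := Ideal.Quotient.field _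
  have hp := (below v).2
  have hcard : Nat.card (𝓞 F ⧸ v.asIdeal) = (below v : ℕ) ^ deg v := (nm_eq v).1
  have h1 : ∀ y : 𝓞 F ⧸ v.asIdeal, y ^ ((below v : ℕ) ^ m) = y := by
    intro y
    obtain ⟨x, rfl⟩ := Ideal.Quotient.mk_surjective y
    rw [← map_pow]
    exact Ideal.Quotient.eq.2 (h x)
  obtain ⟨g, hg⟩ := IsCyclic.exists_ofOrder_eq_natCard (α := (𝓞 F ⧸ v.asIdeal)ˣ)
  have h2 : Nat.card (𝓞 F ⧸ v.asIdeal)ˣ = (below v : ℕ) ^ deg v - 1 := by
    rw [Nat.card_units, hcard]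
  have h3 : g ^ ((below v : ℕ) ^ m - 1) = 1 := by
    have h4 : g ^ ((below v : ℕ) ^ m) = g := by
      apply Units.ext
      push_cast
      exact h1 g
    have h5 : 1 ≤ (below v : ℕ) ^ m := Nat.one_le_pow _ _ hp.pos
    have h6 : g ^ ((below v : ℕ) ^ m - 1) * g = 1 * g := by
      rw [← pow_succ, Nat.sub_add_cancel h5, h4, one_mul]
    exact mul_right_cancel h6
  have h4 := orderOf_dvd_of_pow_eq_one h3
  rw [hg, h2] at h4
  have h5 : 1 < (below v : ℕ) ^ m := Nat.one_lt_pow hm.ne' hp.one_lt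
  have h6 := Nat.le_of_dvd (by omega) h4
  have h7 : (below v : ℕ) ^ deg v ≤ (below v : ℕ) ^ m := by omega
  exact (Nat.pow_le_pow_iff_right hp.one_lt).1 h7

lemma deg_le_two (hF : Gen F) : deg v ≤ 2 := deg_le_of (frob_sq hφ hF) (by norm_num)

/-- the residue degree is one exactly if the Frobenius is in the inertia group -/
lemma deg_one_iff : deg v = 1 ↔ φ ∈ In v := by
  constructor
  · intro h1 x
    have hmax : v.asIdeal.IsMaximal := v.isMaximal
    have hfin : Finite (𝓞 F ⧸ v.asIdeal) := Ideal.finiteQuotientOfFreeOfNeBot _ v.ne_bot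
    letI : Field (𝓞 F ⧸ v.asIdeal) := Ideal.Quotient.field _
    have hcard : Nat.card (𝓞 F ⧸ v.asIdeal) = (below v : ℕ) := by
      have : Nat.card (𝓞 F ⧸ v.asIdeal) = (below v : ℕ) ^ deg v := (nm_eq v).1
      rw [this, h1, pow_one]
    have h2 : x ^ (below v : ℕ) - x ∈ v.asIdeal := by
      apply Ideal.Quotient.eq.1
      rw [map_pow, ← hcard]
      let _ : Fintype (𝓞 F ⧸ v.asIdeal) := Fintype.ofFinite _
      rw [Nat.card_eq_fintype_card]
      exact FiniteField.pow_card _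
    have h3 := v.asIdeal.add_mem (hφ x) h2
    have e : φ • x - x ^ (below v : ℕ) + (x ^ (below v : ℕ) - x) = φ • x - x := by ring
    rw [e] at h3
    exact h3
  · intro h
    have h1 : deg v ≤ 1 := by
      refine deg_le_of (m := 1) (fun x => ?_) one_pos
      rw [pow_one]
      have h2 := v.asIdeal.sub_mem (h x) (hφ x)
      have e : φ • x - x - (φ • x - x ^ (below v : ℕ)) = x ^ (below v : ℕ) - x := by ring
      rw [e] at h2
      exact h2
    have h2 := (nm_eq v).2.1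
    omega

lemma frob_val_odd (M : Ms F) (hM : M ∈ Mp F (below v : ℕ)) (h2 : (below v : ℕ) ≠ 2) :
    chi M φ = 1 ↔ J((below v : ℕ) | (M : ℕ)) = 1 := by
  have hp : Fact ((below v : ℕ)).Prime := ⟨(below v).2⟩
  have hodd : Odd (below v : ℕ) := (below v).2.odd_of_ne_two h2
  obtain ⟨x, hx⟩ := M.2.2
  obtain ⟨t, s, ht, hs, -, hs2⟩ := exists_th M.2.1.mod4 hx
  have hMv : ((M : ℕ) : 𝓞 F) ∉ v.asIdeal := nat_notMem hM
  have hsv : s ∉ v.asIdeal := by
    intro h
    apply hMv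
    rw [← hs2, sq]
    exact v.asIdeal.mul_mem_left _ h
  have h2v : ((2 : ℕ) : 𝓞 F) ∉ v.asIdeal := by
    refine nat_notMem ?_
    intro h
    exact h2 ((Nat.prime_dvd_prime_iff_eq (below v).2 Nat.prime_two).1 h)
  rw [← jacobiSym.quadratic_reciprocity_one_mod_four' hodd M.2.1.mod4 |>.symm]
  have hMz : (((M : ℕ) : ℤ) : ZMod (below v : ℕ)) ≠ 0 := by
    rw [Int.cast_natCast]
    intro h
    rw [ZMod.natCast_eq_zero_iff] at h
    exact hM h
  -- the power
  obtain ⟨ℓ, hℓ⟩ : ∃ ℓ : ℤ, ℓ = legendreSym (below v : ℕ) ((M : ℕ) : ℤ) := ⟨_, rfl⟩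
  have hpow : s ^ (below v : ℕ) - s * (ℓ : 𝓞 F) ∈ v.asIdeal := by
    have h3 := legendreSym.eq_pow (below v : ℕ) ((M : ℕ) : ℤ)
    rw [← hℓ] at h3
    have h4 : ((below v : ℕ) : ℤ) ∣ ((M : ℕ) : ℤ) ^ ((below v : ℕ) / 2) - ℓ := by
      rw [← ZMod.intCast_zmod_eq_zero_iff_dvd]
      push_cast
      rw [h3]
      push_cast
      ring
    obtain ⟨c, hc⟩ := h4
    have h5 : s ^ (below v : ℕ) = s * ((M : ℕ) : 𝓞 F) ^ ((below v : ℕ) / 2) := by
      conv_lhs => rw [← Nat.two_mul_div_two_add_one_of_odd hodd]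
      rw [pow_succ, pow_mul, hs2]
      ring
    rw [h5, ← mul_sub]
    apply v.asIdeal.mul_mem_left
    have h6 := congrArg (Int.cast : ℤ → 𝓞 F) hc
    push_cast at h6
    rw [h6]
    exact v.asIdeal.mul_mem_right _ (nm_eq v).2.2
  have hfr := v.asIdeal.add_mem (hφ s) hpow
  have e : φ • s - s ^ (below v : ℕ) + (s ^ (below v : ℕ) - s * (ℓ : 𝓞 F)) =
      φ • s - s * (ℓ : 𝓞 F) := by ring
  rw [e] at hfr
  rw [chi_eq_one_iff M hx]
  rw [← jacobiSym.legendreSym.to_jacobiSym, ← hℓ]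
  rcases legendreSym.eq_one_or_neg_one (below v : ℕ) hMz with h | h
  · rw [← hℓ] at h
    refine iff_of_true ?_ h
    rcases act_or hx φ with h1 | h1
    · exact h1
    · exfalso
      have h3 : φ • s = -s := by
        apply RingOfIntegers.ext
        rw [coe_smul, hs, h1]
        show -x = -(s : F)
        rw [hs]
      rw [h3, h] at hfr
      have e2 : -s - s * ((1 : ℤ) : 𝓞 F) = -(((2 : ℕ) : 𝓞 F) * s) := by push_cast; ring
      rw [e2, v.asIdeal.neg_mem_iff] at hfr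
      exact (v.isPrime.mem_or_mem hfr).elim h2v hsv
  · rw [← hℓ] at h
    refine iff_of_false ?_ (by rw [h]; norm_num)
    intro h1
    have h3 : φ • s = s := by
      apply RingOfIntegers.ext
      rw [coe_smul, hs, h1]
    rw [h3, h] at hfr
    have e2 : s - s * ((-1 : ℤ) : 𝓞 F) = ((2 : ℕ) : 𝓞 F) * s := by push_cast; ring
    rw [e2] at hfr
    exact (v.isPrime.mem_or_mem hfr).elim h2v hsv

lemma frob_val_two (M : Ms F) (h2 : (below v : ℕ) = 2) :
    chi M φ = 1 ↔ J((below v : ℕ) | (M : ℕ)) = 1 := by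
  obtain ⟨x, hx⟩ := M.2.2
  have hmod := M.2.1.mod4
  obtain ⟨t, s, ht, hs, ht2, hs2⟩ := exists_th hmod hx
  have hM : ¬ (below v : ℕ) ∣ (M : ℕ) := by
    rw [h2]
    omega
  have hMv : ((M : ℕ) : 𝓞 F) ∉ v.asIdeal := nat_notMem hM
  have hsv : s ∉ v.asIdeal := by
    intro h
    apply hMv
    rw [← hs2, sq]
    exact v.asIdeal.mul_mem_left _ h
  have hodd : Odd (M : ℕ) := Nat.odd_iff.2 (by omega)
  have h3 : J((below v : ℕ) | (M : ℕ)) = ZMod.χ₈ (M : ℕ) := by
    rw [h2]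
    exact jacobiSym.at_two hodd
  have hfr := hφ t
  rw [h2, ht2] at hfr
  rw [h3, ZMod.χ₈_nat_eq_if_mod_eight, chi_eq_one_iff M hx, if_neg (by omega)]
  have h2v : (((2 : ℕ) : ℕ) : 𝓞 F) ∈ v.asIdeal := by
    have := (nm_eq v).2.2
    rwa [h2] at this
  by_cases h8 : (M : ℕ) % 8 = 1 ∨ (M : ℕ) % 8 = 7
  · rw [if_pos h8]
    refine iff_of_true ?_ rfl
    have hm : ((((M : ℕ) / 4 : ℕ)) : 𝓞 F) ∈ v.asIdeal := by
      obtain ⟨c, hc⟩ : 2 ∣ (M : ℕ) / 4 := by omega
      rw [hc, Nat.cast_mul]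
      exact v.asIdeal.mul_mem_right _ h2v
    rcases act_or hx φ with h1 | h1
    · exact h1
    · exfalso
      have h4 := move (M := (M : ℕ)) h1 ht hs
      have h5 := v.asIdeal.add_mem hfr hm
      have e : φ • t - (t + ((((M : ℕ) / 4 : ℕ)) : 𝓞 F)) + ((((M : ℕ) / 4 : ℕ)) : 𝓞 F) =
          φ • t - t := by ring
      rw [e, h4] at h5
      exact hsv (v.asIdeal.neg_mem_iff.1 h5)
  · rw [if_neg h8]
    refine iff_of_false ?_ (by norm_num)
    intro h1
    have h4 : φ • t = t := by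
      apply RingOfIntegers.ext
      rw [coe_smul, ht, map_div₀, map_add, map_one, h1, map_ofNat]
    rw [h4] at hfr
    have e : t - (t + ((((M : ℕ) / 4 : ℕ)) : 𝓞 F)) = -((((M : ℕ) / 4 : ℕ)) : 𝓞 F) := by ring
    rw [e, v.asIdeal.neg_mem_iff] at hfr
    refine nat_notMem (v := v) ?_ hfr
    rw [h2]
    omega

/-- the value of the character of `√M` at the Frobenius -/
theorem frob_val (M : Ms F) (hM : M ∈ Mp F (below v : ℕ)) :
    ((chi M φ : ℂˣ) : ℂ) = ((J((below v : ℕ) | (M : ℕ)) : ℤ) : ℂ) := by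
  have h1 : chi M φ = 1 ↔ J((below v : ℕ) | (M : ℕ)) = 1 := by
    by_cases h2 : (below v : ℕ) = 2
    · exact frob_val_two hφ M h2
    · exact frob_val_odd hφ M hM h2
  have hg : ((below v : ℕ) : ℤ).gcd (M : ℕ) = 1 := by
    rw [Int.gcd_natCast_natCast]
    exact (Nat.Prime.coprime_iff_not_dvd (below v).2).2 hM
  rcases chi_or M φ with h | h
  · rw [h, h1.1 h]
    norm_num
  · rcases jacobiSym.eq_one_or_neg_one hg with h3 | h3
    · have h4 := h1.2 h3
      rw [h4, h3]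
      norm_num
    · rw [h, h3]
      norm_num

end

end Pool.Agent.T9h30.MQ
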