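import Pool.Agent.Y698.Lf

/-!
# Local factors of curves isomorphic to a curve with good reduction
-/

set_option autoImplicit false
set_option linter.unusedSectionVars false

namespace Pool.Agent.T9h30.MQ

open WeierstrassCurve Pool.Agent.W189.NF Pool.Agent.Y698

section Local

variable (R : Type) [CommRing R] [IsDomain R] [IsDiscreteValuationRing R] {L : Type}
  [Field L] [Algebra R L] [IsFractionRing R L]

open IsDiscreteValuationRing

/-- a curve isomorphic to a curve with an integral equation with a unit discriminant -/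
theorem min_good' {W₀ : WeierstrassCurve R} (hΔ : IsUnit W₀.Δ) {W : WeierstrassCurve L}
    {B : VariableChange L} (hW : W = B • W₀.map (algebraMap R L)) :
    (W.minimal R).HasGoodReduction R := by
  obtain ⟨C, hC⟩ : ∃ C : VariableChange L, W.minimal R = C • W := ⟨_, rfl⟩
  set W' := W₀.map (algebraMap R L) with hW'
  have hWint : IsIntegral R W' := ⟨⟨W₀, hW'⟩⟩
  have hvW : (maximalIdeal R).valuation L W'.Δ = 1 := by
    rw [hW', map_Δ]
    exact v_unit R hΔ
  have hmin : IsMinimal R (W.minimal R) := inferInstance
  refine ⟨?_⟩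
  obtain ⟨h1, h2⟩ := hmin.val_Δ_maximal
  have e1 : (C * B)⁻¹ • W.minimal R = W' := by rw [hC, hW, ← mul_smul C B, inv_smul_smul]
  have h3 := h2 (j := (C * B)⁻¹) (by simp only [e1]; exact hWint)
  simp only [e1, one_smul] at h3
  have hle : valuation_Δ_aux R (W.minimal R) ≤ valuation_Δ_aux R W' := by
    rw [← Subtype.coe_le_coe, valuation_Δ_aux_eq_of_isIntegral R W', hvW]
    exact (valuation_Δ_aux R (W.minimal R)).2
  have h4 := le_antisymm hle (h3 hle)
  have h5 := congrArg Subtype.val h4
  rw [valuation_Δ_aux_eq_of_isIntegral, valuation_Δ_aux_eq_of_isIntegral] at h5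
  rw [h5]
  exact hvW

/-- the local factor of a curve isomorphic to a curve with good reduction -/
theorem min_count' {W₀ : WeierstrassCurve R} (hΔ : IsUnit W₀.Δ) {W : WeierstrassCurve L}
    {B : VariableChange L} (hW : W = B • W₀.map (algebraMap R L))
    [Finite (IsLocalRing.ResidueField R)] :
    aLoc R W = (Nat.card (IsLocalRing.ResidueField R) : ℤ) -
      Nat.card (AP (W₀.map (IsLocalRing.residue R))) ∧
    eLoc R W = Nat.card (IsLocalRing.ResidueField R) := by
  have hg := min_good' R hΔ hW
  unfold aLoc eLoc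
  rw [if_pos hg, if_pos hg]
  refine ⟨?_, rfl⟩
  obtain ⟨C, hC⟩ : ∃ C : VariableChange L, W.minimal R = C • W := ⟨_, rfl⟩
  have h1 : ((W.minimal R).integralModel R).map (algebraMap R L) =
      (C * B) • W₀.map (algebraMap R L) := by
    have := baseChange_integralModel_eq R (W.minimal R)
    rw [mul_smul, ← hW, ← hC]
    exact this
  have h2 : IsUnit ((W.minimal R).integralModel R).Δ := by
    have h3 := hg.goodReduction
    rw [← integralModel_Δ_eq R (W.minimal R),
      IsDedekindDomain.HeightOneSpectrum.valuation_eq_one_iff_notMem] at h3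
    by_contra h4
    exact h3 ((IsLocalRing.mem_maximalIdeal _).2 h4)
  obtain ⟨C₀, hC₀⟩ := vc_int R hΔ h2 h1
  have h3 : (W.minimal R).reduction R = (C₀.map (IsLocalRing.residue R)) •
      (W₀.map (IsLocalRing.residue R)) := by
    unfold WeierstrassCurve.reduction
    rw [hC₀, ← WeierstrassCurve.map_variableChange]
  have h4 : ((W.minimal R).reduction R).Δ ≠ 0 := by
    unfold WeierstrassCurve.reduction
    rw [map_Δ]
    exact (h2.map _).ne_zero
  rw [card_point _ h4, h3, Nat.card_congr (AP_equiv _ _)]
  push_cast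
  ring

/-- isomorphic curves with good reduction have the same local factor -/
theorem loc_same {W₀ : WeierstrassCurve R} (hΔ : IsUnit W₀.Δ) {W : WeierstrassCurve L}
    {B : VariableChange L} (hW : W = B • W₀.map (algebraMap R L))
    [Finite (IsLocalRing.ResidueField R)] :
    aLoc R W = aLoc R (W₀.map (algebraMap R L)) ∧ eLoc R W = eLoc R (W₀.map (algebraMap R L)) := by
  obtain ⟨a1, a2⟩ := min_count' R hΔ hW
  obtain ⟨b1, b2⟩ := min_count R hΔ (W := W₀.map (algebraMap R L)) rfl
  exact ⟨a1.trans b1.symm, a2.trans b2.symm⟩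

end Local

end Pool.Agent.T9h30.MQ
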