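import Pool.Agent.T9h30.MQ.Comb
import Pool.Agent.T9h30.MQ.Min
import Pool.Agent.Y698.SG.Az
import Pool.Agent.Y698.Cg

/-!
# The Euler factors of the twists of `X_0(49)` over a multiquadratic field
-/

set_option autoImplicit false
set_option linter.unusedSectionVars false

open scoped Classical

namespace Pool.Agent.T9h30.MQ

open NumberField IsDedekindDomain WeierstrassCurve Pool.Agent.W189.NF
open Pool.Agent.H921R2.TatePole Pool.Agent.H82R3.EK
open Pool.Agent.Y698 Pool.Agent.Y698.SG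
open W165.CE (pw)
open scoped NumberTheorySymbols

/-- the sign of `D` at `p` -/
noncomputable def ep (D p : ℕ) : ℂ := ∏ q ∈ D.primeFactors, qch q (p : ℕ)

lemma Ad.gp {D : ℕ} (h : Ad D) : ∀ q ∈ D.primeFactors, Gp q := fun q hq =>
  ⟨Nat.prime_of_mem_primeFactors hq, h.2 q hq⟩

lemma Ad.pr {D : ℕ} (h : Ad D) : ∏ q ∈ D.primeFactors, q = 1 + 4 * (D / 4) := by
  rw [Nat.prod_primeFactors_of_squarefree h.1]
  have := h.mod4
  omega

lemma ep_eq {D : ℕ} (h : Ad D) (p : ℕ) : ep D p = ((J(((p : ℕ) : ℤ) | D) : ℤ) : ℂ) := by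
  unfold ep
  rw [eps_eq h.gp, Nat.prod_primeFactors_of_squarefree h.1]

lemma ep_zero {D p : ℕ} (h : Ad D) (hp : p.Prime) (hd : p ∣ D) : ep D p = 0 := by
  unfold ep
  refine Finset.prod_eq_zero (Nat.mem_primeFactors.2 ⟨hp, hd, h.ne⟩) ?_
  rcases qch_val hp (p : ℤ) with h | h
  · exact h.2
  · exact absurd dvd_rfl h.1

lemma ep_tw {M D p : ℕ} (hM : Ad M) (hD : Ad D) (hp : p.Prime) (h : ¬ p ∣ M) :
    ep (tw M D) p = ep M p * ep D p := by
  rw [ep_eq (hM.tw hD), ep_eq hM, ep_eq hD, js_tw _ hM hD]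
  · push_cast
    rfl
  · rw [Int.gcd_natCast_natCast]
    exact (Nat.Prime.coprime_iff_not_dvd hp).2 fun hd => h (hd.trans (Nat.gcd_dvd_left _ _))

/-- isomorphic twists -/
lemma EX_iso {k : Type} [Field k] [CharZero k] {j j' : ℕ} {u : kˣ}
    (h : (u : k) ^ 2 * (1 + 4 * (j' : k)) = 1 + 4 * (j : k)) :
    EX k (j' : k) = (⟨u, 0, ((u : k) - 1) / 2, 0⟩ : VariableChange k) • EX k (j : k) := by
  have hu : (u : k) ≠ 0 := u.ne_zero
  have e0 : ((u⁻¹ : kˣ) : k) = (u : k)⁻¹ := Units.val_inv_eq_inv_val _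
  have hj : (j : k) = ((u : k) ^ 2 * (1 + 4 * (j' : k)) - 1) / 4 := by
    rw [h]
    ring
  ext
  · rw [variableChange_a₁, e0]
    show (1 : k) = (u : k)⁻¹ * (1 + 2 * (((u : k) - 1) / 2))
    field_simp
    ring
  · rw [variableChange_a₂, e0]
    show -(1 + 3 * (j' : k)) = (u : k)⁻¹ ^ 2 * (-(1 + 3 * (j : k)) - (((u : k) - 1) / 2) * 1 + 3 * 0 -
      (((u : k) - 1) / 2) ^ 2)
    rw [hj]
    field_simp
    ring
  · rw [variableChange_a₃, e0]
    show (0 : k) = (u : k)⁻¹ ^ 3 * (0 + 0 * 1 + 2 * 0)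
    ring
  · rw [variableChange_a₄, e0]
    show -2 * (1 + 4 * (j' : k)) ^ 2 = (u : k)⁻¹ ^ 4 * (-2 * (1 + 4 * (j : k)) ^ 2 -
      (((u : k) - 1) / 2) * 0 + 2 * 0 * _ - (0 + 0 * (((u : k) - 1) / 2)) * 1 + 3 * 0 ^ 2 -
      2 * (((u : k) - 1) / 2) * 0)
    rw [hj]
    field_simp
    ring
  · rw [variableChange_a₆, e0]
    show -(1 + 4 * (j' : k)) ^ 3 = (u : k)⁻¹ ^ 6 * (-(1 + 4 * (j : k)) ^ 3 + 0 * _ + 0 ^ 2 * _ +
      0 ^ 3 - 0 * 0 - 0 ^ 2 - 0 * 0 * 1)
    rw [hj]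
    field_simp
    ring

variable {F : Type} [Field F] [NumberField F]

lemma isUnit_nat (v : HeightOneSpectrum (𝓞 F)) {m : ℕ} (h : ¬ (below v : ℕ) ∣ m) :
    IsUnit ((m : ℕ) : Ov v) := by
  obtain ⟨n1, n2, n3⟩ := nm_eq v
  by_contra hcon
  have h1 : IsLocalRing.residue (Ov v) ((m : ℕ) : Ov v) = 0 :=
    (IsLocalRing.residue_eq_zero_iff _).2 ((IsLocalRing.mem_maximalIdeal _).2 hcon)
  rw [map_natCast] at h1
  have hfin := finite_res v
  have hcard : Nat.card (IsLocalRing.ResidueField (Ov v)) = (below v : ℕ) ^ deg v := by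
    rw [← n1]
    exact card_res v
  have h2 : ((below v : ℕ) : IsLocalRing.ResidueField (Ov v)) = 0 := by
    have h2 : ((Nat.card (IsLocalRing.ResidueField (Ov v)) : ℕ) :
        IsLocalRing.ResidueField (Ov v)) = 0 := by
      have := Fintype.ofFinite (IsLocalRing.ResidueField (Ov v))
      rw [Nat.card_eq_fintype_card]
      exact Nat.cast_card_eq_zero _
    rw [hcard] at h2
    push_cast at h2
    exact (pow_eq_zero_iff n2.ne').1 h2
  have hcop : IsCoprime ((below v : ℕ) : ℤ) (m : ℤ) :=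
    Nat.isCoprime_iff_coprime.2 ((Nat.Prime.coprime_iff_not_dvd (below v).2).2 h)
  obtain ⟨s, t, hst⟩ := hcop
  have h3 := congrArg (fun z : ℤ => (z : IsLocalRing.ResidueField (Ov v))) hst
  push_cast at h3
  rw [h1, h2, mul_zero, mul_zero, add_zero] at h3
  exact zero_ne_one h3

lemma seven_not (M : Ms F) : ¬ 7 ∣ (M : ℕ) := by
  intro h
  have h1 := M.2.1.2 7 (Nat.mem_primeFactors.2 ⟨by norm_num, h, M.2.1.ne⟩)
  norm_num at h1

/-- the local factor -/
theorem LFD_eq (hF : Gen F) {D : ℕ} (hD : Ad D) (v : HeightOneSpectrum (𝓞 F))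
    (h : (∀ M : Ms F, ¬ (below v : ℕ) ∣ (M : ℕ)) ∨ ¬ (below v : ℕ) ∣ D) (s : ℂ) :
    LFD (K := F) (D / 4) s v = (1 - pw (bc (below v : ℕ)) (ec (below v : ℕ)) (deg v) *
      (ep D (below v : ℕ) * ((below v : ℕ) : ℂ) ^ (-s)) ^ deg v + ec (below v : ℕ) ^ deg v *
        ((ep D (below v : ℕ) * ((below v : ℕ) : ℂ) ^ (-s)) ^ deg v) ^ 2)⁻¹ := by
  have h7 : (below v : ℕ) = 7 → v.valuation F ((7 : ℕ) : F) = WithZero.exp (-1 : ℤ) := by
    intro h7
    have := val_unr hF v (by rw [h7]; exact seven_not)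
    rwa [h7] at this
  have hq : ∀ q ∈ D.primeFactors, (below v : ℕ) = q →
      v.valuation F ((q : ℕ) : F) = WithZero.exp (-1 : ℤ) := by
    intro q hq hb
    subst hb
    rcases h with h | h
    · exact val_unr hF v h
    · exact absurd (Nat.dvd_of_mem_primeFactors hq) h
  obtain ⟨c1, c2⟩ := coeffsD v hD.gp hD.pr h7 hq
  unfold LFD
  rw [c1, c2, (nm_eq v).1, Pool.Agent.W164.RC.pow_cpow']
  congr 1
  unfold ep
  rw [mul_pow, mul_pow]
  ring

/-- the local coefficients of isomorphic twists -/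
theorem coef_same (v : HeightOneSpectrum (𝓞 F)) {D : ℕ} (hD : Ad D) (M₀ : Ms F)
    (h : ¬ (below v : ℕ) ∣ tw M₀ D) (h7 : (below v : ℕ) ≠ 7) :
    aV (EX F ((D / 4 : ℕ) : F)) v = aV (EX F ((tw M₀ D / 4 : ℕ) : F)) v ∧
    eV (EX F ((D / 4 : ℕ) : F)) v = eV (EX F ((tw M₀ D / 4 : ℕ) : F)) v := by
  obtain ⟨x, hx⟩ := M₀.2.2
  have hx0 := root_ne M₀.2.1.ne hx
  have hg : ((Nat.gcd M₀ D : ℕ) : F) ≠ 0 := Nat.cast_ne_zero.2 M₀.2.1.gcd_ne
  set D0 := tw M₀ D with hD0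
  have hA0 : Ad D0 := M₀.2.1.tw hD
  -- `D = (x / g)⁻² D₀`: `D₀ g² = M D`
  have hrel : (D0 : F) * (Nat.gcd M₀ D : ℕ) ^ 2 = x ^ 2 * D := by
    have := congrArg (fun z : ℕ => (z : F)) (tw_mul M₀ D)
    push_cast at this
    rw [hx]
    exact this
  set u : F := x / (Nat.gcd M₀ D : ℕ) with hu
  have hu0 : u ≠ 0 := div_ne_zero hx0 hg
  have hd : (D0 : F) = u ^ 2 * D := by
    rw [hu, div_pow]
    field_simp
    linear_combination hrel
  have hDj : (D : F) = 1 + 4 * ((D / 4 : ℕ) : F) := by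
    have h1 : D = 1 + 4 * (D / 4) := by have := hD.mod4; omega
    have := congrArg (fun z : ℕ => (z : F)) h1
    push_cast at this
    exact this
  have hD0j : (D0 : F) = 1 + 4 * ((D0 / 4 : ℕ) : F) := by
    have h1 : D0 = 1 + 4 * (D0 / 4) := by have := hA0.mod4; omega
    have := congrArg (fun z : ℕ => (z : F)) h1
    push_cast at this
    exact this
  -- the isomorphism over the completion
  have hfin := finite_res v
  have hch : CharZero (v.adicCompletion F) :=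
    charZero_of_injective_algebraMap (algebraMap F (v.adicCompletion F)).injective
  have hΔ : IsUnit (EX (Ov v) ((D0 / 4 : ℕ) : Ov v)).Δ := by
    rw [EX_Δ]
    have e1 : (1 + 4 * ((D0 / 4 : ℕ) : Ov v)) = ((D0 : ℕ) : Ov v) := by
      have h1 : D0 = 1 + 4 * (D0 / 4) := by have := hA0.mod4; omega
      have := congrArg (fun z : ℕ => (z : Ov v)) h1
      push_cast at this
      exact this.symm
    rw [e1]
    refine IsUnit.mul ?_ ((isUnit_nat v h).pow 6)
    have e : (-343 : Ov v) = -(((7 : ℕ) : Ov v) ^ 3) := by norm_num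
    rw [e]
    refine ((isUnit_nat v ?_).pow 3).neg
    intro h8
    exact h7 ((Nat.prime_dvd_prime_iff_eq (below v).2 (by norm_num)).1 h8)
  have hb : ∀ j : ℕ, (EX F (j : F)).baseChange (v.adicCompletion F) =
      EX (v.adicCompletion F) (j : v.adicCompletion F) := by
    intro j
    have := EX_map (algebraMap F (v.adicCompletion F)) (j : F)
    rw [map_natCast] at this
    exact this
  have hb' : ∀ j : ℕ, (EX (Ov v) (j : Ov v)).map (algebraMap (Ov v) (v.adicCompletion F)) =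
      EX (v.adicCompletion F) (j : v.adicCompletion F) := by
    intro j
    rw [EX_map, map_natCast]
  set U : (v.adicCompletion F)ˣ := Units.mk0 (algebraMap F (v.adicCompletion F) u)
    ((map_ne_zero _).2 hu0) with hU
  have hW : (EX F ((D / 4 : ℕ) : F)).baseChange (v.adicCompletion F) =
      (⟨U, 0, ((U : v.adicCompletion F) - 1) / 2, 0⟩ : VariableChange (v.adicCompletion F)) •
        (EX (Ov v) ((D0 / 4 : ℕ) : Ov v)).map (algebraMap (Ov v) (v.adicCompletion F)) := by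
    rw [hb, hb']
    apply EX_iso
    have h1 : u ^ 2 * (1 + 4 * ((D / 4 : ℕ) : F)) = 1 + 4 * ((D0 / 4 : ℕ) : F) := by
      rw [← hDj, ← hD0j, hd]
    have h2 := congrArg (algebraMap F (v.adicCompletion F)) h1
    simp only [map_mul, map_pow, map_add, map_one, map_natCast, map_ofNat] at h2
    exact h2
  obtain ⟨a1, a2⟩ := loc_same (v.adicCompletionIntegers F) hΔ hW
  unfold aV eV
  rw [hb (D0 / 4), ← hb']
  exact ⟨a1, a2⟩

/-- **the Euler factors over a multiquadratic field** -/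
theorem prod_places (hF : Gen F) [Fintype (Ms F)] {D : ℕ} (hD : Ad D) (s : ℂ) (p : Nat.Primes) :
    ∏ v : {v : HeightOneSpectrum (𝓞 F) // below v = p}, LFD (K := F) (D / 4) s v.1 =
      ∏ M : Ms F, EF (ep (tw M D) p) s p := by
  obtain ⟨v₀, hv₀⟩ := exists_place (M := F) p
  subst hv₀
  obtain ⟨φ, hφ⟩ := exists_frob hF v₀
  -- a good representative
  obtain ⟨M₀, hM₀, hcase⟩ : ∃ M₀ : Ms F, (∀ v : HeightOneSpectrum (𝓞 F), below v = below v₀ →
      LFD (K := F) (D / 4) s v = LFD (K := F) (tw M₀ D / 4) s v) ∧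
      ((∀ M : Ms F, ¬ (below v₀ : ℕ) ∣ (M : ℕ)) ∨ ¬ (below v₀ : ℕ) ∣ tw M₀ D) := by
    by_cases h : ∀ M : Ms F, ¬ (below v₀ : ℕ) ∣ (M : ℕ)
    · refine ⟨⟨1, Ms_one⟩, fun v _ => ?_, Or.inl h⟩
      rw [tw_one]
    · push Not at h
      obtain ⟨M, hM⟩ := h
      have h7 : (below v₀ : ℕ) ≠ 7 := by
        intro h7
        rw [h7] at hM
        exact seven_not M hM
      by_cases hd : (below v₀ : ℕ) ∣ D
      · have hnd : ¬ (below v₀ : ℕ) ∣ tw M D := by
          rw [dvd_tw M.2.1 hD (below v₀).2]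
          tauto
        refine ⟨M, fun v hv => ?_, Or.inr hnd⟩
        obtain ⟨a1, a2⟩ := coef_same v hD M (by rw [hv]; exact hnd) (by rw [hv]; exact h7)
        unfold LFD
        rw [a1, a2]
      · refine ⟨⟨1, Ms_one⟩, fun v _ => ?_, Or.inr ?_⟩
        · rw [tw_one]
        · rw [tw_one]
          exact hd
  set D0 := tw M₀ D with hD0
  have hA0 : Ad D0 := M₀.2.1.tw hD
  -- the degrees
  have hN : 0 < Fintype.card {w : HeightOneSpectrum (𝓞 F) // below w = below v₀} :=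
    Fintype.card_pos_iff.2 ⟨⟨v₀, rfl⟩⟩
  have hdeg : ∀ v : HeightOneSpectrum (𝓞 F), below v = below v₀ → deg v = deg v₀ := by
    intro v hv
    have h1 := count_Mp hF v
    have h2 := count_Mp hF v₀
    rw [hv] at h1
    exact Nat.eq_of_mul_eq_mul_left hN (h1.trans h2.symm)
  have hL : ∀ v : {v : HeightOneSpectrum (𝓞 F) // below v = below v₀},
      LFD (K := F) (D / 4) s v.1 = (1 - pw (bc (below v₀ : ℕ)) (ec (below v₀ : ℕ)) (deg v₀) *
      (ep D0 (below v₀ : ℕ) * ((below v₀ : ℕ) : ℂ) ^ (-s)) ^ deg v₀ + ec (below v₀ : ℕ) ^ deg v₀ *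
        ((ep D0 (below v₀ : ℕ) * ((below v₀ : ℕ) : ℂ) ^ (-s)) ^ deg v₀) ^ 2)⁻¹ := by
    rintro ⟨v, hv⟩
    rw [hM₀ v hv, LFD_eq hF hA0 v (by rw [hv]; exact hcase), hv, hdeg v hv]
  rw [Finset.prod_congr rfl fun v _ => hL v, Finset.prod_const, Finset.card_univ]
  have hfin : Finite (Mp F (below v₀ : ℕ)) := Finite.Set.subset Set.univ (Set.subset_univ _)
  let _ : Fintype (Mp F (below v₀ : ℕ)) := Fintype.ofFinite _
  rw [← prod_chi hφ hF]
  -- reindexing
  have h1 : ∏ M : Ms F, EF (ep (tw M D) (below v₀ : ℕ)) s (below v₀ : ℕ) =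
      ∏ M : Ms F, EF (ep (tw M D0) (below v₀ : ℕ)) s (below v₀ : ℕ) := by
    refine Finset.prod_nbij' (fun M => ⟨tw M₀ M, Ms_tw M₀.2 M.2⟩)
      (fun M => ⟨tw M₀ M, Ms_tw M₀.2 M.2⟩) (fun _ _ => Finset.mem_univ _)
      (fun _ _ => Finset.mem_univ _) ?_ ?_ ?_
    · intro M _
      exact Subtype.ext (tw_cancel M₀.2.1 M.2.1)
    · intro M _
      exact Subtype.ext (tw_cancel M₀.2.1 M.2.1)
    · intro M _
      have e1 : tw (tw M₀ M) D0 = tw M D := by
        rw [hD0, tw_comm M₀ M, tw_tw M.2.1 M₀.2.1 (M₀.2.1.tw hD), tw_cancel M₀.2.1 hD]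
      rw [e1]
  rw [h1]
  have h2 : ∏ M : Ms F, EF (ep (tw M D0) (below v₀ : ℕ)) s (below v₀ : ℕ) =
      ∏ M ∈ Finset.univ.filter (fun M : Ms F => M ∈ Mp F (below v₀ : ℕ)),
        EF (ep (tw M D0) (below v₀ : ℕ)) s (below v₀ : ℕ) := by
    symm
    refine Finset.prod_filter_of_ne fun M _ hne => ?_
    by_contra hM
    rw [mem_Mp, not_not] at hM
    apply hne
    have hd0 : ¬ (below v₀ : ℕ) ∣ D0 := hcase.resolve_left fun h => h M hM
    have h3 : (below v₀ : ℕ) ∣ tw M D0 := by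
      rw [dvd_tw M.2.1 hA0 (below v₀).2]
      tauto
    rw [ep_zero (M.2.1.tw hA0) (below v₀).2 h3]
    unfold EF
    rw [zero_mul]
    norm_num
  rw [h2, Finset.prod_subtype (p := fun M : Ms F => M ∈ Mp F (below v₀ : ℕ))
    (Finset.univ.filter (fun M : Ms F => M ∈ Mp F (below v₀ : ℕ)))
    (fun M => by rw [Finset.mem_filter]; exact ⟨fun h => h.2, fun h => ⟨Finset.mem_univ _, h⟩⟩)]
  refine Finset.prod_congr rfl fun M _ => ?_
  unfold EF
  have e1 : ep (tw M.1 D0) (below v₀ : ℕ) = ((chi M.1 φ : ℂˣ) : ℂ) * ep D0 (below v₀ : ℕ) := by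
    rw [ep_tw M.1.2.1 hA0 (below v₀).2 M.2, frob_val hφ M.1 M.2, ep_eq M.1.2.1]
  rw [e1, mul_assoc]

end Pool.Agent.T9h30.MQ
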