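import Pool.Agent.T9h30.MQ.Dual
import Pool.Agent.H82R3.EK.Fiber

/-!
# Multiquadratic fields: the decomposition of the primes
-/

set_option autoImplicit false
set_option linter.unusedSectionVars false

open scoped Classical

namespace Pool.Agent.T9h30.MQ

open NumberField IsDedekindDomain
open Pool.Agent.H921R2.TatePole Pool.Agent.H82R3.EK

variable {F : Type} [Field F] [NumberField F]

/-- the inertia group -/
noncomputable abbrev In (v : HeightOneSpectrum (𝓞 F)) : Subgroup Gal(F/ℚ) :=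
  v.asIdeal.inertia Gal(F/ℚ)

lemma mem_In {v : HeightOneSpectrum (𝓞 F)} {σ : Gal(F/ℚ)} :
    σ ∈ In v ↔ ∀ x : 𝓞 F, σ • x - x ∈ v.asIdeal := Iff.rfl

/-- a natural number prime to the prime below `v` is not in `v` -/
lemma nat_notMem {v : HeightOneSpectrum (𝓞 F)} {m : ℕ} (h : ¬ (below v : ℕ) ∣ m) :
    ((m : ℕ) : 𝓞 F) ∉ v.asIdeal := by
  intro hm
  have h1 := (nm_eq v).2.2
  have hcop : IsCoprime (m : ℤ) ((below v : ℕ) : ℤ) :=
    Nat.isCoprime_iff_coprime.2 (((Nat.Prime.coprime_iff_not_dvd (below v).2).2 h).symm)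
  obtain ⟨a, b, hab⟩ := hcop
  apply v.isPrime.ne_top
  rw [Ideal.eq_top_iff_one]
  have h3 : ((a : 𝓞 F) * (m : 𝓞 F) + (b : 𝓞 F) * ((below v : ℕ) : 𝓞 F)) = 1 := by
    have := congrArg (Int.cast : ℤ → 𝓞 F) hab
    push_cast at this
    exact this
  rw [← h3]
  exact v.asIdeal.add_mem (v.asIdeal.mul_mem_left _ hm) (v.asIdeal.mul_mem_left _ h1)

/-- the integer `(1 + x) / 2` -/
lemma exists_th {M : ℕ} (hM : M % 4 = 1) {x : F} (hx : x ^ 2 = (M : F)) :
    ∃ (t s : 𝓞 F), (t : F) = (1 + x) / 2 ∧ (s : F) = x ∧ t ^ 2 = t + ((M / 4 : ℕ) : 𝓞 F) ∧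
      s ^ 2 = ((M : ℕ) : 𝓞 F) := by
  obtain ⟨m, hm⟩ : ∃ m, M = 1 + 4 * m := ⟨M / 4, by omega⟩
  have hm' : M / 4 = m := by omega
  have h2 : ((1 + x) / 2) ^ 2 = (1 + x) / 2 + (m : F) := by
    have h3 : x ^ 2 = 1 + 4 * (m : F) := by rw [hx, hm]; push_cast; ring
    linear_combination (1 / 4 : F) * h3
  have hint : IsIntegral ℤ ((1 + x) / 2 : F) := by
    refine ⟨Polynomial.X ^ 2 - Polynomial.X - Polynomial.C (m : ℤ), ?_, ?_⟩
    · have : (Polynomial.X ^ 2 - Polynomial.X - Polynomial.C (m : ℤ) : Polynomial ℤ) =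
          Polynomial.X ^ 2 + (-Polynomial.X + -Polynomial.C (m : ℤ)) := by ring
      rw [this]
      refine Polynomial.monic_X_pow_add ?_
      refine lt_of_le_of_lt (Polynomial.degree_add_le _ _) (max_lt ?_ ?_)
      · rw [Polynomial.degree_neg, Polynomial.degree_X]
        norm_num
      · rw [Polynomial.degree_neg]
        refine lt_of_le_of_lt Polynomial.degree_C_le ?_
        norm_num
    · simp only [Polynomial.eval₂_sub, Polynomial.eval₂_pow, Polynomial.eval₂_X, Polynomial.eval₂_C]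
      rw [h2]
      simp
  have hints : IsIntegral ℤ x := by
    refine ⟨Polynomial.X ^ 2 - Polynomial.C (M : ℤ), Polynomial.monic_X_pow_sub_C _ (by norm_num), ?_⟩
    simp [hx]
  refine ⟨⟨_, hint⟩, ⟨x, hints⟩, rfl, rfl, ?_, ?_⟩
  · rw [hm']
    apply RingOfIntegers.ext
    push_cast
    exact h2
  · apply RingOfIntegers.ext
    push_cast
    exact hx

lemma coe_smul (σ : Gal(F/ℚ)) (t : 𝓞 F) : ((σ • t : 𝓞 F) : F) = σ (t : F) := rfl

/-- if `σ` changes the sign of `√M` then it moves an integer by `√M` -/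
lemma move {M : ℕ} {x : F} {σ : Gal(F/ℚ)} (hs : σ x = -x) {t s : 𝓞 F}
    (ht : (t : F) = (1 + x) / 2) (hss : (s : F) = x) : σ • t - t = -s := by
  apply RingOfIntegers.ext
  have h1 : ((σ • t - t : 𝓞 F) : F) = σ (t : F) - (t : F) := rfl
  have h2 : ((-s : 𝓞 F) : F) = -(s : F) := rfl
  rw [h1, h2, ht, hss, map_div₀, map_add, map_one, hs, map_ofNat]
  ring

/-- the inertia group fixes the square roots of the numbers prime to `p` -/
theorem inertia_fix {v : HeightOneSpectrum (𝓞 F)} (M : Ms F) (hp : ¬ (below v : ℕ) ∣ (M : ℕ))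
    {σ : Gal(F/ℚ)} (hσ : σ ∈ In v) : chi M σ = 1 := by
  obtain ⟨x, hx⟩ := M.2.2
  rcases chi_or M σ with h | h
  · exact h
  · exfalso
    have h1 := (chi_neg_iff M hx σ).1 h
    obtain ⟨t, s, ht, hs, -, hs2⟩ := exists_th M.2.1.mod4 hx
    have h2 := mem_In.1 hσ t
    rw [move (M := (M : ℕ)) h1 ht hs] at h2
    have h3 : s ^ 2 ∈ v.asIdeal := by
      rw [sq]
      exact v.asIdeal.mul_mem_left _ (v.asIdeal.neg_mem_iff.1 h2)
    rw [hs2] at h3
    exact nat_notMem hp h3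

/-- the square of the prime contains `p` if `p` divides a number which is a square in `F` -/
theorem ram_sq {v : HeightOneSpectrum (𝓞 F)} (M : Ms F) (hp : (below v : ℕ) ∣ (M : ℕ)) :
    (((below v : ℕ) : ℕ) : 𝓞 F) ∈ v.asIdeal ^ 2 := by
  obtain ⟨x, hx⟩ := M.2.2
  obtain ⟨t, s, ht, hs, -, hs2⟩ := exists_th M.2.1.mod4 hx
  obtain ⟨m, hm⟩ := hp
  have hpp := (below v).2
  have hcop : ¬ (below v : ℕ) ∣ m := by
    rintro ⟨c, hc⟩
    have h1 := M.2.1.1 (below v : ℕ) ⟨c, by rw [hm, hc]; ring⟩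
    exact hpp.one_lt.ne' (Nat.isUnit_iff.1 h1)
  have h1 : s ∈ v.asIdeal := by
    have h2 : s ^ 2 ∈ v.asIdeal := by
      rw [hs2, hm]
      push_cast
      exact v.asIdeal.mul_mem_right _ (nm_eq v).2.2
    exact v.isPrime.mem_of_pow_mem 2 h2
  have h3 : ((M : ℕ) : 𝓞 F) ∈ v.asIdeal ^ 2 := by
    rw [← hs2]
    exact Ideal.pow_mem_pow h1 2
  have hc : IsCoprime (m : ℤ) ((below v : ℕ) : ℤ) :=
    Nat.isCoprime_iff_coprime.2 (((Nat.Prime.coprime_iff_not_dvd hpp).2 hcop).symm)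
  obtain ⟨a, b, hab⟩ := hc
  have h4 : (((below v : ℕ) : ℕ) : 𝓞 F) = (a : 𝓞 F) * ((M : ℕ) : 𝓞 F) +
      (b : 𝓞 F) * (((below v : ℕ) : 𝓞 F)) ^ 2 := by
    have h5 := congrArg (Int.cast : ℤ → 𝓞 F) hab
    push_cast at h5
    have h6 : ((M : ℕ) : 𝓞 F) = ((below v : ℕ) : 𝓞 F) * (m : 𝓞 F) := by
      rw [hm]
      push_cast
      rfl
    rw [h6]
    linear_combination (-((below v : ℕ) : 𝓞 F)) * h5
  rw [h4]
  exact (v.asIdeal ^ 2).add_mem ((v.asIdeal ^ 2).mul_mem_left _ h3)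
    ((v.asIdeal ^ 2).mul_mem_left _ (Ideal.pow_mem_pow (nm_eq v).2.2 2))

section count

variable (hF : Gen F) (v : HeightOneSpectrum (𝓞 F))

lemma lies : v.asIdeal.LiesOver (Ideal.span {((below v : ℕ) : ℤ)}) :=
  liesOver_of_mem F (below v).2 v (nm_eq v).2.2

include hF in
/-- places, inertia, residue degree -/
theorem count_eq : Fintype.card {w : HeightOneSpectrum (𝓞 F) // below w = below v} *
    Nat.card (In v) * deg v = Module.finrank ℚ F := by
  have hG := gen_galois hF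
  have hp : Fact ((below v : ℕ)).Prime := ⟨(below v).2⟩
  have hl := lies v
  have hvp := v.isPrime
  have hmax : (Ideal.span {((below v : ℕ) : ℤ)}).IsMaximal :=
    Int.ideal_span_isMaximal_of_prime (below v : ℕ)
  have hprime : (Ideal.span {((below v : ℕ) : ℤ)}).IsPrime := hmax.isPrime
  have hperf : PerfectField (Ideal.span {((below v : ℕ) : ℤ)}).ResidueField := by
    have hfin : Finite (Ideal.span {((below v : ℕ) : ℤ)}).ResidueField := by
      have h1 : Finite (ℤ ⧸ Ideal.span {((below v : ℕ) : ℤ)}) := by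
        have : NeZero (below v : ℕ) := ⟨(below v).2.ne_zero⟩
        exact Finite.of_equiv _ (Int.quotientSpanNatEquivZMod (below v : ℕ)).symm.toEquiv
      have h2 : Function.Surjective (algebraMap (ℤ ⧸ Ideal.span {((below v : ℕ) : ℤ)})
          (Ideal.span {((below v : ℕ) : ℤ)}).ResidueField) :=
        (Ideal.bijective_algebraMap_quotient_residueField _).2
      exact Finite.of_surjective _ h2
    infer_instance
  have h1 := Ideal.ncard_primesOver_mul_card_inertia_mul_finrank (G := Gal(F/ℚ))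
    (Ideal.span {((below v : ℕ) : ℤ)}) v.asIdeal
  rw [IsGalois.card_aut_eq_finrank] at h1
  rw [card_fiber]
  have h2 : v.asIdeal.inertiaDeg ℤ = deg v := by
    have h3 := Ideal.pow_inertiaDeg (below v : ℕ) v.asIdeal
    have h4 := (nm_eq v).1
    exact Nat.pow_right_injective (below v).2.two_le (by
      show (below v : ℕ) ^ _ = (below v : ℕ) ^ _
      rw [h3, ← h4]
      rfl)
  rw [← h2]
  exact h1

end count

end Pool.Agent.T9h30.MQ
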