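import Pool.Agent.T9h30.MQ.Prm

/-!
# Multiquadratic fields: the inertia group and the residue degree
-/

set_option autoImplicit false
set_option linter.unusedSectionVars false

open scoped Classical

namespace Pool.Agent.T9h30.MQ

open NumberField IsDedekindDomain
open Pool.Agent.H921R2.TatePole Pool.Agent.H82R3.EK

variable {F : Type} [Field F] [NumberField F]

/-- the ideal below -/
noncomputable abbrev bi (v : HeightOneSpectrum (𝓞 F)) : Ideal ℤ := Ideal.span {((below v : ℕ) : ℤ)}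

lemma bi_max (v : HeightOneSpectrum (𝓞 F)) : (bi v).IsMaximal := by
  have hp : Fact ((below v : ℕ)).Prime := ⟨(below v).2⟩
  exact Int.ideal_span_isMaximal_of_prime (below v : ℕ)

lemma bi_perf (v : HeightOneSpectrum (𝓞 F)) :
    haveI := (bi_max v).isPrime
    PerfectField (bi v).ResidueField := by
  have hmax := bi_max v
  have hprime : (bi v).IsPrime := hmax.isPrime
  have hfin : Finite (bi v).ResidueField := by
    have h1 : Finite (ℤ ⧸ bi v) := by
      have : NeZero (below v : ℕ) := ⟨(below v).2.ne_zero⟩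
      exact Finite.of_equiv _ (Int.quotientSpanNatEquivZMod (below v : ℕ)).symm.toEquiv
    have h2 : Function.Surjective (algebraMap (ℤ ⧸ bi v) (bi v).ResidueField) :=
      (Ideal.bijective_algebraMap_quotient_residueField _).2
    exact Finite.of_surjective _ h2
  infer_instance

/-- the inertia group is trivial exactly if `p` is not in the square of the prime -/
theorem card_In_ne_one (hF : Gen F) (v : HeightOneSpectrum (𝓞 F)) :
    Nat.card (In v) ≠ 1 ↔ (((below v : ℕ) : ℕ) : 𝓞 F) ∈ v.asIdeal ^ 2 := by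
  have hG := gen_galois hF
  have hl : v.asIdeal.LiesOver (bi v) := lies v
  have hvp := v.isPrime
  have hmax := bi_max v
  have hprime : (bi v).IsPrime := hmax.isPrime
  have hperf := bi_perf v
  have h1 : Nat.card (In v) = Ideal.ramificationIdxIn (bi v) (𝓞 F) :=
    Ideal.card_inertia_eq_ramificationIdxIn (G := Gal(F/ℚ)) (bi v) v.asIdeal
  have h2 : Ideal.ramificationIdxIn (bi v) (𝓞 F) = v.asIdeal.ramificationIdx ℤ :=
    Ideal.ramificationIdxIn_eq_ramificationIdx (bi v) v.asIdeal Gal(F/ℚ)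
  have hne : bi v ≠ ⊥ := by
    intro h
    rw [Ideal.span_singleton_eq_bot] at h
    exact (below v).2.ne_zero (by exact_mod_cast h)
  have h3 : (bi v).ramificationIdx' v.asIdeal = v.asIdeal.ramificationIdx ℤ :=
    Ideal.ramificationIdx'_eq_ramificationIdx (bi v) v.asIdeal hne
  have hmap : (bi v).map (algebraMap ℤ (𝓞 F)) = Ideal.span {(((below v : ℕ) : ℕ) : 𝓞 F)} := by
    rw [Ideal.map_span, Set.image_singleton]
    simp
  have hle : (bi v).map (algebraMap ℤ (𝓞 F)) ≤ v.asIdeal := by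
    rw [hmap, Ideal.span_singleton_le_iff_mem]
    exact (nm_eq v).2.2
  rw [h1, h2, ← h3, Ideal.ramificationIdx'_ne_one_iff hle, hmap, Ideal.span_singleton_le_iff_mem]

/-- the numbers prime to `p` -/
def Mp (F : Type) [Field F] [NumberField F] (p : ℕ) : Set (Ms F) := {M | ¬ p ∣ (M : ℕ)}

lemma mem_Mp {p : ℕ} {M : Ms F} : M ∈ Mp F p ↔ ¬ p ∣ (M : ℕ) := Iff.rfl

/-- half of the numbers are prime to `p`, or all are -/
theorem card_Mp_half (hF : Gen F) {p : ℕ} (hp : p.Prime) {M₀ : Ms F} (h0 : p ∣ (M₀ : ℕ)) :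
    2 * Nat.card (Mp F p) = Module.finrank ℚ F := by
  have hfin := finite_Ms hF
  have h1 : Nat.card (Mp F p) = Nat.card ((Mp F p)ᶜ : Set (Ms F)) := by
    have htw : ∀ M : Ms F, (⟨tw M₀ M, Ms_tw M₀.2 M.2⟩ : Ms F) ∈ Mp F p ↔ M ∉ Mp F p := by
      intro M
      rw [mem_Mp, mem_Mp, not_not, dvd_tw M₀.2.1 M.2.1 hp]
      tauto
    refine Nat.card_congr ⟨fun M => ⟨⟨tw M₀ M.1, Ms_tw M₀.2 M.1.2⟩, ?_⟩,
      fun M => ⟨⟨tw M₀ M.1, Ms_tw M₀.2 M.1.2⟩, ?_⟩, ?_, ?_⟩
    · show _ ∉ _
      rw [htw]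
      exact not_not.2 M.2
    · rw [htw]
      exact M.2
    · intro M
      apply Subtype.ext
      apply Subtype.ext
      exact tw_cancel M₀.2.1 M.1.2.1
    · intro M
      apply Subtype.ext
      apply Subtype.ext
      exact tw_cancel M₀.2.1 M.1.2.1
  have h2 : Nat.card (Mp F p) + Nat.card ((Mp F p)ᶜ : Set (Ms F)) = Nat.card (Ms F) := by
    rw [Nat.card_coe_set_eq, Nat.card_coe_set_eq]
    exact Set.ncard_add_ncard_compl _
  rw [card_Ms hF] at h2
  omega

theorem card_Mp_all (hF : Gen F) {p : ℕ} (h0 : ∀ M : Ms F, ¬ p ∣ (M : ℕ)) :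
    Nat.card (Mp F p) = Module.finrank ℚ F := by
  have hfin := finite_Ms hF
  have : Mp F p = Set.univ := Set.eq_univ_of_forall h0
  rw [this, ← card_Ms hF]
  exact Nat.card_congr (Equiv.Set.univ _)

/-- the numbers prime to `p` are the annihilator of the inertia group -/
theorem In_perp (hF : Gen F) (v : HeightOneSpectrum (𝓞 F)) :
    Nat.card (In v) * Nat.card (Mp F (below v : ℕ)) = Module.finrank ℚ F ∧
    ∀ M : Ms F, (∀ σ ∈ In v, chi M σ = 1) → M ∈ Mp F (below v : ℕ) := by
  have hfin := finite_Ms hF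
  set A : Set (Ms F) := {M | ∀ σ ∈ In v, chi M σ = 1} with hA
  have h1 : Nat.card (In v) * Nat.card A = Module.finrank ℚ F := card_perp_Ms hF (In v)
  have hsub : Mp F (below v : ℕ) ⊆ A := fun M hM σ hσ => inertia_fix M hM hσ
  have hn : 0 < Module.finrank ℚ F := Module.finrank_pos
  have hle : Nat.card (Mp F (below v : ℕ)) ≤ Nat.card A := by
    rw [Nat.card_coe_set_eq, Nat.card_coe_set_eq]
    exact Set.ncard_le_ncard hsub (Set.toFinite _)
  have hcase : Nat.card (In v) * Nat.card (Mp F (below v : ℕ)) = Module.finrank ℚ F := by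
    by_cases h : ∃ M₀ : Ms F, (below v : ℕ) ∣ (M₀ : ℕ)
    · obtain ⟨M₀, h0⟩ := h
      have h2 := card_Mp_half hF (below v).2 h0
      have h3 := (card_In_ne_one hF v).2 (ram_sq M₀ h0)
      have h4 : 0 < Nat.card (In v) := Nat.card_pos
      have h5 : 2 ≤ Nat.card (In v) := by omega
      have h6 : Nat.card (In v) = 2 := by
        by_contra hne
        have h7 : 3 ≤ Nat.card (In v) := by omega
        have h8 : 3 * Nat.card A ≤ Module.finrank ℚ F := by
          rw [← h1]
          exact Nat.mul_le_mul_right _ h7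
        omega
      rw [h6]
      exact h2
    · push Not at h
      have h2 := card_Mp_all hF h
      have h3 : Nat.card (In v) * Nat.card A ≤ 1 * Nat.card A := by
        rw [one_mul, h1, ← h2]
        exact hle
      have hpos : 0 < Nat.card A := by omega
      have h4 := Nat.le_of_mul_le_mul_right h3 hpos
      have h5 : 0 < Nat.card (In v) := Nat.card_pos
      have h6 : Nat.card (In v) = 1 := by omega
      rw [h6, one_mul, h2]
  refine ⟨hcase, ?_⟩
  have hpos : 0 < Nat.card (In v) := Nat.card_pos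
  have h2 : Nat.card (Mp F (below v : ℕ)) = Nat.card A := by
    apply Nat.eq_of_mul_eq_mul_left hpos
    rw [hcase, h1]
  have h3 : Mp F (below v : ℕ) = A := by
    refine Set.eq_of_subset_of_ncard_le hsub ?_ (Set.toFinite _)
    rw [← Nat.card_coe_set_eq, ← Nat.card_coe_set_eq, h2]
  intro M hM
  rw [h3]
  exact hM

/-- places and residue degree -/
theorem count_Mp (hF : Gen F) (v : HeightOneSpectrum (𝓞 F)) :
    Fintype.card {w : HeightOneSpectrum (𝓞 F) // below w = below v} * deg v =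
      Nat.card (Mp F (below v : ℕ)) := by
  have h1 := count_eq hF v
  have h2 := (In_perp hF v).1
  have hpos : 0 < Nat.card (In v) := Nat.card_pos
  apply Nat.eq_of_mul_eq_mul_left hpos
  rw [h2, ← h1]
  ring

/-- `p` is a uniformiser at the places above the `p` that divide no number of `Ms F` -/
theorem val_unr (hF : Gen F) (v : HeightOneSpectrum (𝓞 F)) (h : ∀ M : Ms F, ¬ (below v : ℕ) ∣ (M : ℕ)) :
    v.valuation F (((below v : ℕ) : ℕ) : F) = WithZero.exp (-1 : ℤ) := by
  have h1 := (In_perp hF v).1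
  rw [card_Mp_all hF h] at h1
  have hn : 0 < Module.finrank ℚ F := Module.finrank_pos
  have h2 : Nat.card (In v) = 1 := by
    have h3 : Nat.card (In v) * Module.finrank ℚ F = 1 * Module.finrank ℚ F := by rw [h1, one_mul]
    exact Nat.eq_of_mul_eq_mul_right hn h3
  have h3 : (((below v : ℕ) : ℕ) : 𝓞 F) ∉ v.asIdeal ^ 2 := by
    intro h4
    exact (card_In_ne_one hF v).2 h4 h2
  have h4 : (((below v : ℕ) : ℕ) : 𝓞 F) ∈ v.asIdeal := (nm_eq v).2.2
  have h5 : (((below v : ℕ) : ℕ) : F) = algebraMap (𝓞 F) F (((below v : ℕ) : ℕ) : 𝓞 F) := by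
    rw [map_natCast]
  rw [h5, HeightOneSpectrum.valuation_of_algebraMap]
  have h6 := (v.intValuation_le_pow_iff_mem (((below v : ℕ) : ℕ) : 𝓞 F) 1)
  have h7 := (v.intValuation_le_pow_iff_mem (((below v : ℕ) : ℕ) : 𝓞 F) 2)
  rw [pow_one] at h6
  have h8 := h6.2 h4
  have h9 : ¬ v.intValuation (((below v : ℕ) : ℕ) : 𝓞 F) ≤ WithZero.exp (-((2 : ℕ) : ℤ)) :=
    fun h => h3 (h7.1 h)
  have h0 : (((below v : ℕ) : ℕ) : 𝓞 F) ≠ 0 := Nat.cast_ne_zero.2 (below v).2.ne_zero
  have hne : v.intValuation (((below v : ℕ) : ℕ) : 𝓞 F) ≠ 0 := v.intValuation_ne_zero _ h0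
  obtain ⟨k, hk⟩ : ∃ k : ℤ, v.intValuation (((below v : ℕ) : ℕ) : 𝓞 F) = WithZero.exp k :=
    ⟨_, (WithZero.exp_log hne).symm⟩
  rw [hk] at h8 h9 ⊢
  rw [WithZero.exp_le_exp] at h8 h9
  congr 1
  push_cast at h8 h9
  omega

end Pool.Agent.T9h30.MQ
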